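import Pool.Agent.H11.KT.Targets

/-!
# Words in finite soluble groups such that the group and its derived group have few generators
-/

set_option autoImplicit false

open scoped commutatorElement
open Pool.Agent.H11.EL Pool.Agent.H11.KT

namespace Pool.Agent.H49.KT

theorem bs_lift_map {r : ℕ} (w : FreeGroup (Fin r)) {G H : Type} [Group G] [Group H]
    (φ : G →* H) (f : Fin r → G) :
    φ (FreeGroup.lift f w) = FreeGroup.lift (fun i => φ (f i)) w := by
  have : φ.comp (FreeGroup.lift f) = FreeGroup.lift (fun i => φ (f i)) := by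
    ext i; simp
  rw [← this]; rfl

/-- the verbal subgroup -/
def bsV {r : ℕ} (w : FreeGroup (Fin r)) (G : Type) [Group G] : Subgroup G where
  carrier := {g | ∃ k, PW w k g}
  one_mem' := ⟨0, PW.one 0⟩
  mul_mem' := by
    rintro a b ⟨k, hk⟩ ⟨l, hl⟩
    exact ⟨k + l, hk.mul hl⟩
  inv_mem' := by
    rintro a ⟨k, hk⟩
    exact ⟨k, hk.inv⟩

theorem bsV_normal {r : ℕ} (w : FreeGroup (Fin r)) (G : Type) [Group G] :
    (bsV w G).Normal := by
  constructor
  rintro a ⟨k, hk⟩ g
  exact ⟨k, hk.map (MulAut.conj g).toMonoidHom⟩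

/-- commutators are products of an element of the second derived group and of values -/
theorem bs_comm {r : ℕ} {w : FreeGroup (Fin r)} (hw : MA w) {P : Type} [Group P] {g : P}
    (hg : g ∈ commutator P) : ∃ c ∈ derivedSeries P 2, ∃ k, PW w k (c⁻¹ * g) := by
  haveI := bsV_normal w P
  set W : Subgroup P := derivedSeries P 2 ⊔ bsV w P with hW
  haveI : W.Normal := by
    rw [hW]
    infer_instance
  have hder : derivedSeries (P ⧸ W) 2 = ⊥ := by
    rw [eq_bot_iff, ← map_derivedSeries_eq (QuotientGroup.mk'_surjective W) 2]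
    rintro _ ⟨z, hz, rfl⟩
    rw [Subgroup.mem_bot]
    exact (QuotientGroup.eq_one_iff z).2 (Subgroup.mem_sup_left hz)
  have hlaw : ∀ f : Fin r → P ⧸ W, FreeGroup.lift f w = 1 := by
    intro f
    choose F hF using fun i => QuotientGroup.mk'_surjective W (f i)
    have h1 : f = fun i => QuotientGroup.mk' W (F i) := by
      funext i
      exact (hF i).symm
    rw [h1, ← bs_lift_map]
    exact (QuotientGroup.eq_one_iff _).2 (Subgroup.mem_sup_right ⟨1, PW.val F⟩)
  have hab := hw _ hder hlaw
  have h1 : commutator P ≤ W := by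
    rw [commutator_def, Subgroup.commutator_le]
    intro a _ b _
    rw [← QuotientGroup.eq_one_iff]
    change QuotientGroup.mk' W ⁅a, b⁆ = 1
    rw [map_commutatorElement, commutatorElement_eq_one_iff_mul_comm]
    exact hab _ _
  obtain ⟨c, hc, v, hv, hcv⟩ := Subgroup.mem_sup_of_normal_right.1 (h1 hg)
  obtain ⟨k, hk⟩ := hv
  refine ⟨c, hc, k, ?_⟩
  rw [← hcv, inv_mul_cancel_left]
  exact hk

theorem cp_mem {P : Type} [Group P] (n : ℕ) (a b : ℕ → P) : cp n a b ∈ commutator P := by
  induction n with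
  | zero => exact Subgroup.one_mem _
  | succ n ih =>
    rw [cp_succ]
    refine Subgroup.mul_mem _ ih ?_
    rw [commutator_def]
    exact Subgroup.commutator_mem_commutator (Subgroup.mem_top _) (Subgroup.mem_top _)

theorem pf_BS (hKP : P_KP) (_hPP : P_PP) (hCW : T_CW) : P_BS := by
  intro r w hw ρ
  by_contra hcon
  push Not at hcon
  choose G grp fin sol hs hs' x y hxy using hcon
  let _ : ∀ K, Group (G K) := grp
  have hfin : ∀ K, Finite (G K) := fin
  choose s hs using hs
  choose s' hs' using hs'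
  have hmem : ∀ K i, s' K i ∈ commutator (G K) := by
    intro K i
    rw [← hs' K]
    exact Subgroup.subset_closure ⟨i, rfl⟩
  choose a b hab _ using fun K i => hCW ρ (G K) (sol K) (s K) (hs K) (s' K i) (hmem K i)
  have hu : ∀ i : Fin ρ, (fun K => s' K i : ∀ K, G K) ∈ commutator (∀ K, G K) := by
    intro i
    have h1 : (fun K => s' K i : ∀ K, G K) =
        cp (ρ + 2) (fun j K => a K i j) (fun j K => b K i j) := by
      funext K
      have h2 := cp_map (Pi.evalMonoidHom G K) (ρ + 2) (fun j K => a K i j) (fun j K => b K i j)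
      rw [← hab K i]
      exact h2.symm
    rw [h1]
    exact cp_mem _ _ _
  choose c hc m hm using fun i => bs_comm hw (hu i)
  have hd : ∀ (g : ∀ K, G K), g ∈ derivedSeries (∀ K, G K) 2 → ∀ K,
      g K ∈ ⁅commutator (G K), commutator (G K)⁆ := by
    intro g hg K
    have h1 : g K ∈ derivedSeries (G K) 2 :=
      map_derivedSeries_le_derivedSeries (Pi.evalMonoidHom G K) 2 ⟨g, hg, rfl⟩
    rw [derivedSeries_succ, derivedSeries_one] at h1
    exact h1
  obtain ⟨M, hM⟩ := hKP r w ρ (Finset.univ.sup m)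
  have key : ∀ K, ∀ g ∈ ⁅commutator (G K), commutator (G K)⁆, PW w M g := by
    intro K
    haveI := sol K
    refine hM (G K) (commutator (G K)) inferInstance (s' K) (fun i => c i K) (hs' K)
      (fun i => hd _ (hc i) K) fun i => ?_
    exact ((hm i).map (Pi.evalMonoidHom G K)).mono (Finset.le_sup (f := m) (Finset.mem_univ i))
  have hxyc : ⁅(x : ∀ K, G K), y⁆ ∈ commutator (∀ K, G K) := by
    rw [commutator_def]
    exact Subgroup.commutator_mem_commutator (Subgroup.mem_top _) (Subgroup.mem_top _)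
  obtain ⟨c', hc', m', hm'⟩ := bs_comm hw hxyc
  refine hxy (M + m') ?_
  have h1 := (key (M + m') _ (hd c' hc' (M + m'))).mul
    (hm'.map (Pi.evalMonoidHom G (M + m')))
  have h2 : c' (M + m') * Pi.evalMonoidHom G (M + m') (c'⁻¹ * ⁅(x : ∀ K, G K), y⁆) =
      ⁅x (M + m'), y (M + m')⁆ := by
    rw [map_mul, map_inv, map_commutatorElement]
    exact mul_inv_cancel_left _ _
  rw [h2] at h1
  exact h1

end Pool.Agent.H49.KT
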