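import Pool.Agent.H49.KT.Lang

/-!
Frame property, soundness of the total semantics, rules for specifications.
-/

namespace Pool.Agent.H49.KT

open Turing Function

variable {K σ : Type} {Γ : K → Type} [DecidableEq K]

omit [DecidableEq K] in
theorem St.ext' {s t : St K σ Γ} (h1 : s.v = t.v) (h2 : s.S = t.S) : s = t := by
  cases s; cases t; simp_all

/-- the frame property -/
theorem frame (k : K) : ∀ (c : Cmd K σ Γ), Free k c → ∀ (l : List (Γ k)) (s : St K σ Γ),
    den c ⟨s.v, update s.S k l⟩ = ⟨(den c s).v, update (den c s).S k l⟩ ∧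
    cost c ⟨s.v, update s.S k l⟩ = cost c s := by
  intro c
  induction c with
  | push k' f =>
    intro h l s
    have h' : k' ≠ k := h
    refine ⟨?_, rfl⟩
    simp only [den]
    rw [update_of_ne h', update_comm h']
  | pop k' f =>
    intro h l s
    have h' : k' ≠ k := h
    refine ⟨?_, rfl⟩
    simp only [den]
    rw [update_of_ne h', update_comm h']
  | peek k' f =>
    intro h l s
    have h' : k' ≠ k := h
    refine ⟨?_, rfl⟩
    simp only [den]
    rw [update_of_ne h']
  | load f => intro h l s; exact ⟨rfl, rfl⟩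
  | seq c₁ c₂ ih₁ ih₂ =>
    intro h l s
    have e1 := ih₁ h.1 l s
    have e2 := ih₂ h.2 l (den c₁ s)
    refine ⟨?_, ?_⟩
    · simp only [den]
      rw [e1.1, e2.1]
    · simp only [cost]
      rw [e1.1, e1.2, e2.2]
  | ite p c₁ c₂ ih₁ ih₂ =>
    intro h l s
    have e1 := ih₁ h.1 l s
    have e2 := ih₂ h.2 l s
    cases hp : p s.v
    · simp only [den, cost, hp, cond_false]
      exact ⟨e2.1, by rw [e2.2]⟩
    · simp only [den, cost, hp, cond_true]
      exact ⟨e1.1, by rw [e1.2]⟩
  | wh p c ih => intro h l s; exact ⟨rfl, rfl⟩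
  | loop k' f g c ih =>
    intro h l s
    have h' : k' ≠ k := h.1
    have key : ∀ (lst : List (Γ k')) (t : St K σ Γ),
        itS (den c) f lst ⟨t.v, update t.S k l⟩ =
          ⟨(itS (den c) f lst t).v, update (itS (den c) f lst t).S k l⟩ ∧
        itC (den c) (cost c) f lst ⟨t.v, update t.S k l⟩ = itC (den c) (cost c) f lst t := by
      intro lst
      induction lst with
      | nil => intro t; exact ⟨rfl, rfl⟩
      | cons x lst ihl =>
        intro t
        have e := ih h.2 l ⟨f t.v x, t.S⟩
        have e' := ihl (den c ⟨f t.v x, t.S⟩)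
        simp only [itS, itC]
        rw [e.1, e.2]
        exact ⟨e'.1, by rw [e'.2]⟩
    have e := key (s.S k') ⟨s.v, update s.S k' []⟩
    simp only [den, cost]
    rw [update_of_ne h', update_comm h'.symm]
    exact ⟨by rw [e.1], e.2⟩

/-- soundness of the total semantics -/
theorem run_den : ∀ (c : Cmd K σ Γ), WF c → ∀ s : St K σ Γ, Run c s (den c s) (cost c s) := by
  intro c
  induction c with
  | push k f => intro _ s; exact .push k f s
  | pop k f => intro _ s; exact .pop k f s
  | peek k f => intro _ s; exact .peek k f s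
  | load f => intro _ s; exact .load f s
  | seq c₁ c₂ ih₁ ih₂ => intro h s; exact .seq (ih₁ h.1 s) (ih₂ h.2 _)
  | ite p c₁ c₂ ih₁ ih₂ =>
    intro h s
    cases hp : p s.v
    · simp only [den, cost, hp, cond_false]
      exact .ite_false hp (ih₂ h.2 s)
    · simp only [den, cost, hp, cond_true]
      exact .ite_true hp (ih₁ h.1 s)
  | wh p c _ => intro h; exact absurd h id
  | loop k f g c ih =>
    intro h s
    have key : ∀ (lst : List (Γ k)) (t : St K σ Γ),
        Run (.loop k f g c) ⟨t.v, update t.S k lst⟩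
          ⟨g (itS (den c) f lst ⟨t.v, update t.S k []⟩).v,
            (itS (den c) f lst ⟨t.v, update t.S k []⟩).S⟩
          (itC (den c) (cost c) f lst ⟨t.v, update t.S k []⟩) := by
      intro lst
      induction lst with
      | nil =>
        intro t
        exact .loop_nil (s := ⟨t.v, update t.S k []⟩) (update_self _ _ _)
      | cons x lst ihl =>
        intro t
        have e := (frame k c h.1 lst ⟨f t.v x, update t.S k []⟩)
        simp only [update_idem] at e
        have e0 := (frame k c h.1 [] ⟨f t.v x, update t.S k []⟩).1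
        simp only [update_idem] at e0
        have hb := ih h.2 ⟨f t.v x, update t.S k lst⟩
        rw [e.1, e.2] at hb
        have hr := ihl (den c ⟨f t.v x, update t.S k []⟩)
        rw [← e0] at hr
        refine Run.loop_cons (x := x) (l := lst) (update_self _ _ _) ?_ hr
        simp only [update_idem]
        exact hb
    have e := key (s.S k) s
    simp only [update_eq_self] at e
    exact e

/-- `c` turns `s` into `s'` in at most `T` steps -/
def Spec (c : Cmd K σ Γ) (s s' : St K σ Γ) (T : ℕ) : Prop := den c s = s' ∧ cost c s ≤ T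

variable {c c₁ c₂ : Cmd K σ Γ} {s s' s'' : St K σ Γ} {T T₁ T₂ : ℕ}

theorem Spec.mono (h : Spec c s s' T₁) (hT : T₁ ≤ T₂) : Spec c s s' T₂ := ⟨h.1, h.2.trans hT⟩

theorem Spec.seq (h₁ : Spec c₁ s s' T₁) (h₂ : Spec c₂ s' s'' T₂) :
    Spec (.seq c₁ c₂) s s'' (T₁ + T₂) := by
  obtain ⟨rfl, h1⟩ := h₁
  exact ⟨h₂.1, Nat.add_le_add h1 h₂.2⟩

theorem Spec.ite_t {p : σ → Bool} (hp : p s.v = true) (h : Spec c₁ s s' T) :
    Spec (.ite p c₁ c₂) s s' (T + 1) := by
  refine ⟨?_, ?_⟩
  · simp only [den, hp, cond_true]; exact h.1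
  · simp only [cost, hp, cond_true]; exact Nat.add_le_add_right h.2 1

theorem Spec.ite_f {p : σ → Bool} (hp : p s.v = false) (h : Spec c₂ s s' T) :
    Spec (.ite p c₁ c₂) s s' (T + 1) := by
  refine ⟨?_, ?_⟩
  · simp only [den, hp, cond_false]; exact h.1
  · simp only [cost, hp, cond_false]; exact Nat.add_le_add_right h.2 1

theorem Spec.push (k : K) (f : σ → Γ k) (s : St K σ Γ) :
    Spec (.push k f) s ⟨s.v, update s.S k (f s.v :: s.S k)⟩ 1 := ⟨rfl, le_rfl⟩

theorem Spec.pop (k : K) (f : σ → Option (Γ k) → σ) (s : St K σ Γ) :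
    Spec (.pop k f) s ⟨f s.v (s.S k).head?, update s.S k (s.S k).tail⟩ 1 := ⟨rfl, le_rfl⟩

theorem Spec.peek (k : K) (f : σ → Option (Γ k) → σ) (s : St K σ Γ) :
    Spec (.peek k f) s ⟨f s.v (s.S k).head?, s.S⟩ 1 := ⟨rfl, le_rfl⟩

theorem Spec.load (f : σ → σ) (s : St K σ Γ) : Spec (.load f) s ⟨f s.v, s.S⟩ 1 := ⟨rfl, le_rfl⟩

/-- rule for loops: `st i` is the state after `i` rounds (with loop stack empty) -/
theorem Spec.loop {k : K} {f : σ → Γ k → σ} {g : σ → σ} {c : Cmd K σ Γ} {s : St K σ Γ}
    (l : List (Γ k)) (hl : s.S k = l) (st : ℕ → St K σ Γ) (T : ℕ → ℕ)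
    (h0 : st 0 = ⟨s.v, update s.S k []⟩)
    (hstep : ∀ i (hi : i < l.length), Spec c ⟨f (st i).v l[i], (st i).S⟩ (st (i + 1)) (T i)) :
    Spec (.loop k f g c) s ⟨g (st l.length).v, (st l.length).S⟩
      (1 + ∑ i ∈ Finset.range l.length, (T i + 1)) := by
  have key : ∀ (l : List (Γ k)) (st : ℕ → St K σ Γ) (T : ℕ → ℕ),
      (∀ i (hi : i < l.length), Spec c ⟨f (st i).v l[i], (st i).S⟩ (st (i + 1)) (T i)) →
      itS (den c) f l (st 0) = st l.length ∧
      itC (den c) (cost c) f l (st 0) ≤ 1 + ∑ i ∈ Finset.range l.length, (T i + 1) := by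
    intro l
    induction l with
    | nil => intro st T _; exact ⟨rfl, by simp [itC]⟩
    | cons x l ih =>
      intro st T h
      have h0 := h 0 (by simp)
      have h1 := ih (fun i => st (i + 1)) (fun i => T (i + 1)) (fun i hi => by
        have := h (i + 1) (by simpa using hi)
        simpa using this)
      have e : den c ⟨f (st 0).v x, (st 0).S⟩ = st 1 := h0.1
      refine ⟨?_, ?_⟩
      · simp only [itS]
        rw [e]
        exact h1.1
      · simp only [itC, List.length_cons]
        rw [e, Finset.sum_range_succ']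
        have h2 := h1.2
        have h3 := h0.2
        simp only [List.getElem_cons_zero] at h3
        simp only [zero_add] at h2
        omega
  have e := key l st T hstep
  subst hl
  refine ⟨?_, ?_⟩
  · simp only [den]
    rw [← h0, e.1]
  · simp only [cost]
    rw [← h0]
    exact e.2

end Pool.Agent.H49.KT
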