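import Pool.Agent.H49.KT.Base

/-!
Correctness of the compilation, runs that never end, and outputs of machines.
-/

namespace Pool.Agent.H49.KT

open Turing Function

section steps

variable {K : Type} [DecidableEq K] {Γ : K → Type} {Λ τ : Type}

/-- iterated steps -/
abbrev steps (M : Λ → TM2.Stmt Γ Λ τ) (n : ℕ) (a : TM2.Cfg Γ Λ τ) : Option (TM2.Cfg Γ Λ τ) :=
  (flip bind (TM2.step M))^[n] (some a)

theorem steps_add {M : Λ → TM2.Stmt Γ Λ τ} {n m : ℕ} {a b : TM2.Cfg Γ Λ τ}
    (h1 : steps M n a = some b) : steps M (n + m) a = steps M m b := by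
  unfold steps at *
  rw [Nat.add_comm, Function.iterate_add_apply, h1]

theorem steps_one {M : Λ → TM2.Stmt Γ Λ τ} {a b : TM2.Cfg Γ Λ τ} (h : TM2.step M a = some b) :
    steps M 1 a = some b := by
  unfold steps
  simp only [Function.iterate_one, flip]
  exact h

theorem steps_none {M : Λ → TM2.Stmt Γ Λ τ} (n : ℕ) :
    (flip bind (TM2.step M))^[n] (none : Option (TM2.Cfg Γ Λ τ)) = none := by
  induction n with
  | zero => rfl
  | succ n ih => rw [Function.iterate_succ_apply]; exact ih

/-- a halted configuration has no step -/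
theorem steps_halt {M : Λ → TM2.Stmt Γ Λ τ} {n : ℕ} {b : TM2.Cfg Γ Λ τ} (hb : b.l = none)
    (hn : 0 < n) : steps M n b = none := by
  obtain ⟨m, rfl⟩ : ∃ m, n = m + 1 := ⟨n - 1, by omega⟩
  unfold steps
  rw [Function.iterate_succ_apply]
  obtain ⟨l, v, S⟩ := b
  cases hb
  exact steps_none m

/-- two halting runs coincide -/
theorem steps_det {M : Λ → TM2.Stmt Γ Λ τ} {n m : ℕ} {a b b' : TM2.Cfg Γ Λ τ}
    (h1 : steps M n a = some b) (hb : b.l = none) (h2 : steps M m a = some b') (hb' : b'.l = none) :
    n = m ∧ b = b' := by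
  rcases lt_trichotomy n m with h | h | h
  · exfalso
    obtain ⟨k, rfl⟩ : ∃ k, m = n + k := ⟨m - n, by omega⟩
    rw [steps_add h1, steps_halt hb (by omega)] at h2
    exact absurd h2 (by simp)
  · subst h
    rw [h1] at h2
    exact ⟨rfl, Option.some_injective _ h2⟩
  · exfalso
    obtain ⟨k, rfl⟩ : ∃ k, n = m + k := ⟨n - m, by omega⟩
    rw [steps_add h2, steps_halt hb' (by omega)] at h1
    exact absurd h1 (by simp)

/-- a run that is still alive after `n` steps has not halted before -/
theorem steps_alive {M : Λ → TM2.Stmt Γ Λ τ} {n m : ℕ} {a b : TM2.Cfg Γ Λ τ}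
    (h1 : steps M n a = some b) (hb : b.l = none) (h2 : (steps M m a).isSome) : m ≤ n := by
  by_contra h
  obtain ⟨k, rfl⟩ : ∃ k, m = n + k := ⟨m - n, by omega⟩
  rw [steps_add h1, steps_halt hb (by omega)] at h2
  simp at h2

end steps

variable {K σ : Type} {Γ : K → Type} [DecidableEq K]

theorem run_steps {c : Cmd K σ Γ} {s s' : St K σ Γ} {n : ℕ}
    (h : Run c s s' n) : ∀ {Λ : Type} (M : Λ → TM2.Stmt Γ Λ (σ × Bool))
      (e : Lab c → Λ) (nx : Λ), (∀ l, M (e l) = comp c e nx l) →
      steps M n ⟨some (e (entry c)), (s.v, false), s.S⟩ = some ⟨some nx, (s'.v, false), s'.S⟩ := by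
  induction h with
  | push k f s =>
    intro Λ M e nx hM
    refine steps_one ?_
    rw [TM2.step, hM]
    rfl
  | pop k f s =>
    intro Λ M e nx hM
    refine steps_one ?_
    rw [TM2.step, hM]
    rfl
  | peek k f s =>
    intro Λ M e nx hM
    refine steps_one ?_
    rw [TM2.step, hM]
    rfl
  | load f s =>
    intro Λ M e nx hM
    refine steps_one ?_
    rw [TM2.step, hM]
    rfl
  | @seq c₁ c₂ s s' s'' n m h1 h2 ih1 ih2 =>
    intro Λ M e nx hM
    have e1 := ih1 M (fun l => e (.inl l)) (e (.inr (entry c₂))) (fun l => by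
      rw [hM]; rfl)
    have e2 := ih2 M (fun l => e (.inr l)) nx (fun l => by
      rw [hM]; rfl)
    exact (steps_add e1).trans e2
  | @ite_true p c₁ c₂ s s' n hp h1 ih1 =>
    intro Λ M e nx hM
    have e0 : steps M 1 ⟨some (e (entry (.ite p c₁ c₂))), (s.v, false), s.S⟩ =
        some ⟨some (e (some (.inl (entry c₁)))), (s.v, false), s.S⟩ := by
      refine steps_one ?_
      rw [TM2.step, hM]
      simp [entry, comp, TM2.stepAux, hp]
    have e1 := ih1 M (fun l => e (some (.inl l))) nx (fun l => by
      rw [hM]; rfl)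
    rw [Nat.add_comm]
    exact (steps_add e0).trans e1
  | @ite_false p c₁ c₂ s s' n hp h1 ih1 =>
    intro Λ M e nx hM
    have e0 : steps M 1 ⟨some (e (entry (.ite p c₁ c₂))), (s.v, false), s.S⟩ =
        some ⟨some (e (some (.inr (entry c₂)))), (s.v, false), s.S⟩ := by
      refine steps_one ?_
      rw [TM2.step, hM]
      simp [entry, comp, TM2.stepAux, hp]
    have e1 := ih1 M (fun l => e (some (.inr l))) nx (fun l => by
      rw [hM]; rfl)
    rw [Nat.add_comm]
    exact (steps_add e0).trans e1
  | @wh_false p c s hp =>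
    intro Λ M e nx hM
    refine steps_one ?_
    rw [TM2.step, hM]
    simp [entry, comp, TM2.stepAux, hp]
  | @wh_true p c s s' s'' n m hp h1 h2 ih1 ih2 =>
    intro Λ M e nx hM
    have e0 : steps M 1 ⟨some (e (entry (.wh p c))), (s.v, false), s.S⟩ =
        some ⟨some (e (some (entry c))), (s.v, false), s.S⟩ := by
      refine steps_one ?_
      rw [TM2.step, hM]
      simp [entry, comp, TM2.stepAux, hp]
    have e1 := ih1 M (fun l => e (some l)) (e none) (fun l => by
      rw [hM]; rfl)
    have e2 := ih2 M e nx hM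
    have : n + m + 1 = 1 + (n + m) := by omega
    rw [this]
    exact (steps_add e0).trans ((steps_add e1).trans e2)
  | @loop_nil k f g c s hk =>
    intro Λ M e nx hM
    refine steps_one ?_
    rw [TM2.step, hM]
    simp only [entry, comp, TM2.stepAux, hk, List.head?_nil, List.tail_nil, cond_false]
    rw [← hk, update_eq_self]
  | @loop_cons k f g c s s' s'' x l n m hk h1 h2 ih1 ih2 =>
    intro Λ M e nx hM
    have e0 : steps M 1 ⟨some (e (entry (.loop k f g c))), (s.v, false), s.S⟩ =
        some ⟨some (e (some (entry c))), (f s.v x, false), update s.S k l⟩ := by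
      refine steps_one ?_
      rw [TM2.step, hM]
      simp only [entry, comp, TM2.stepAux, hk, List.head?_cons, List.tail_cons, cond_true]
    have e1 := ih1 M (fun l => e (some l)) (e none) (fun l => by
      rw [hM]; rfl)
    have e2 := ih2 M e nx hM
    have : n + m + 1 = 1 + (n + m) := by omega
    rw [this]
    exact (steps_add e0).trans ((steps_add e1).trans e2)

/-- the program is still running after `N` steps -/
def Alive (c : Cmd K σ Γ) (s : St K σ Γ) (N : ℕ) : Prop :=
  ∀ {Λ : Type} (M : Λ → TM2.Stmt Γ Λ (σ × Bool)) (e : Lab c → Λ) (nx : Λ),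
    (∀ l, M (e l) = comp c e nx l) →
      (steps M N ⟨some (e (entry c)), (s.v, false), s.S⟩).isSome

theorem Alive.seq_right {c₁ c₂ : Cmd K σ Γ} {s s' : St K σ Γ} {n N : ℕ} (h : Run c₁ s s' n)
    (h2 : Alive c₂ s' N) : Alive (.seq c₁ c₂) s (n + N) := by
  intro Λ M e nx hM
  have e1 := run_steps h M (fun l => e (.inl l)) (e (.inr (entry c₂))) (fun l => by
      rw [hM]; rfl)
  have e2 := h2 M (fun l => e (.inr l)) nx (fun l => by
      rw [hM]; rfl)
  have : steps M (n + N) ⟨some (e (entry (.seq c₁ c₂))), (s.v, false), s.S⟩ = _ := steps_add e1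
  rw [this]
  exact e2

theorem Alive.seq_left {c₁ c₂ : Cmd K σ Γ} {s : St K σ Γ} {N : ℕ}
    (h2 : Alive c₁ s N) : Alive (.seq c₁ c₂) s N := by
  intro Λ M e nx hM
  exact h2 M (fun l => e (.inl l)) (e (.inr (entry c₂))) (fun l => by
      rw [hM]; rfl)

theorem Alive.ite_t {p : σ → Bool} {c₁ c₂ : Cmd K σ Γ} {s : St K σ Γ} {N : ℕ}
    (hp : p s.v = true) (h2 : Alive c₁ s N) : Alive (.ite p c₁ c₂) s (1 + N) := by
  intro Λ M e nx hM
  have e0 : steps M 1 ⟨some (e (entry (.ite p c₁ c₂))), (s.v, false), s.S⟩ =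
      some ⟨some (e (some (.inl (entry c₁)))), (s.v, false), s.S⟩ := by
    refine steps_one ?_
    rw [TM2.step, hM]
    simp [entry, comp, TM2.stepAux, hp]
  rw [steps_add e0]
  exact h2 M (fun l => e (some (.inl l))) nx (fun l => by
      rw [hM]; rfl)

theorem Alive.ite_f {p : σ → Bool} {c₁ c₂ : Cmd K σ Γ} {s : St K σ Γ} {N : ℕ}
    (hp : p s.v = false) (h2 : Alive c₂ s N) : Alive (.ite p c₁ c₂) s (1 + N) := by
  intro Λ M e nx hM
  have e0 : steps M 1 ⟨some (e (entry (.ite p c₁ c₂))), (s.v, false), s.S⟩ =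
      some ⟨some (e (some (.inr (entry c₂)))), (s.v, false), s.S⟩ := by
    refine steps_one ?_
    rw [TM2.step, hM]
    simp [entry, comp, TM2.stepAux, hp]
  rw [steps_add e0]
  exact h2 M (fun l => e (some (.inr l))) nx (fun l => by
      rw [hM]; rfl)

/-- a `wh` loop with infinitely many rounds is alive at arbitrarily late times -/
theorem Alive.wh {p : σ → Bool} {c : Cmd K σ Γ} (st : ℕ → St K σ Γ) (n : ℕ → ℕ)
    (hp : ∀ i, p (st i).v = true) (hr : ∀ i, Run c (st i) (st (i + 1)) (n i)) :
    ∀ i, ∃ N, i ≤ N ∧ Alive (.wh p c) (st 0) N := by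
  intro i
  refine ⟨∑ j ∈ Finset.range i, (n j + 1), ?_, ?_⟩
  · calc i = ∑ j ∈ Finset.range i, 1 := by simp
      _ ≤ _ := Finset.sum_le_sum (fun j _ => by omega)
  · intro Λ M e nx hM
    have key : steps M (∑ j ∈ Finset.range i, (n j + 1))
        ⟨some (e (entry (.wh p c))), ((st 0).v, false), (st 0).S⟩ =
        some ⟨some (e (entry (.wh p c))), ((st i).v, false), (st i).S⟩ := by
      induction i with
      | zero => rfl
      | succ i ih =>
        rw [Finset.sum_range_succ, steps_add ih]
        have e0 : steps M 1 ⟨some (e (entry (.wh p c))), ((st i).v, false), (st i).S⟩ =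
            some ⟨some (e (some (entry c))), ((st i).v, false), (st i).S⟩ := by
          refine steps_one ?_
          rw [TM2.step, hM]
          simp [entry, comp, TM2.stepAux, hp i]
        have e1 := run_steps (hr i) M (fun l => e (some l)) (e none) (fun l => by
          rw [hM]; rfl)
        rw [Nat.add_comm (n i) 1]
        exact (steps_add e0).trans e1
    rw [key]
    rfl

/-- the bundled machine after a complete run of the program -/
theorem machine_run [Fintype K] [Fintype σ] {c : Cmd K σ Γ} {i o : K} [Fintype (Γ i)] {init : σ}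
    {s s' : St K σ Γ} {n : ℕ} (h : Run c s s' n) (hs : s.v = init) :
    steps (machine c i o init).m (n + 1) ⟨some (some (entry c)), (init, false), s.S⟩ =
      some ⟨none, (init, false), s'.S⟩ := by
  have e := run_steps h (machine c i o init).m some none (fun l => rfl)
  rw [hs] at e
  refine (steps_add e).trans ?_
  exact steps_one rfl

/-- the bundled machine while the program is running -/
theorem machine_alive [Fintype K] [Fintype σ] {c : Cmd K σ Γ} {i o : K} [Fintype (Γ i)] {init : σ}
    {s : St K σ Γ} {N : ℕ} (h : Alive c s N) (hs : s.v = init) :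
    (steps (machine c i o init).m N ⟨some (some (entry c)), (init, false), s.S⟩).isSome := by
  have e := h (machine c i o init).m some none (fun l => rfl)
  rw [hs] at e
  exact e

end Pool.Agent.H49.KT
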