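import Mathlib

/-!
Machines, Levin's Kt, the set of Kt-random strings.
-/

namespace Pool.Agent.H49.KT

open Turing Filter

/-- A machine with Boolean input and output: Mathlib's finite multi-stack Turing machine
`FinTM2` with identifications of the input and the output alphabet with `Bool`. -/
abbrev BM := TM2ComputableAux Bool Bool

/-- On input `d` the machine halts within `t` steps with output `x`. -/
def BM.Outputs (M : BM) (d x : List Bool) (t : ℕ) : Prop :=
  Nonempty (TM2OutputsInTime M.tm (d.map M.inputAlphabet.invFun)
    (some (x.map M.outputAlphabet.invFun)) t)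

/-- `U` is universal with overhead `t ↦ k (t + |d| + 1)^e` (`k` depends on the simulated
machine `V`, `e` does not): for each machine `V` there is a string `c` such that `U` on `c ++ d`
gives the output of `V` on `d`. -/
def Universal (e : ℕ) (U : BM) : Prop :=
  ∀ V : BM, ∃ (c : List Bool) (k : ℕ), ∀ d x t,
    V.Outputs d x t → U.Outputs (c ++ d) x (k * (t + d.length + 1) ^ e)

/-- The set of Kt-random strings of `U`: `Kt(x) ≥ |x|`, where `Kt(x)` is the minimum of
`|d| + log2 t` over all `d`, `t` such that `U` on `d` outputs `x` within `t` steps. -/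
def RKt (U : BM) : Set (List Bool) :=
  {x | ∀ d t, U.Outputs d x t → (x.length : ℝ) ≤ d.length + Real.logb 2 t}

/-- `V` decides the language `L` in time `τ` (output `[true]` on members, `[false]` else). -/
def Decides (V : BM) (L : Set (List Bool)) (τ : ℕ → ℕ) : Prop :=
  ∀ x, (x ∈ L → V.Outputs x [true] (τ x.length)) ∧ (x ∉ L → V.Outputs x [false] (τ x.length))

/-- The class P of Mathlib's polynomial time computable functions, for languages. -/
def InP (L : Set (List Bool)) : Prop :=
  ∃ f : List Bool → Bool, (∀ x, f x = true ↔ x ∈ L) ∧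
    Nonempty (TM2ComputableInPolyTime (fun x : List Bool => x) (fun b : Bool => [b]) f)

/-- main statement -/
def Main : Prop :=
  ∀ (e : ℕ) (U₀ : BM), Universal e U₀ →
    ∃ (U : BM) (e' C : ℕ), Universal e' U ∧
      (∀ d x t, U₀.Outputs d x t →
        U.Outputs (false :: d) x (C * (x.length + 1) ^ 5 * t)) ∧
      (∀ (V : BM) (τ : ℕ → ℕ), Decides V (RKt U) τ →
        ∀ᶠ n in atTop, 2 ^ (n / (e + 1)) ≤ τ n) ∧
      ¬ InP (RKt U)

end Pool.Agent.H49.KT
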