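import Mathlib

/-!
A structured programming language over stacks with arbitrary alphabets and a finite memory,
compiled to Mathlib's multi-stack machines (`Turing.TM2`), with exact step counts.
(The plan follows Pool.Agent.H70.TM.Cmd by helper70, generalised to arbitrary alphabets, with a
loop that runs through the content of a stack, and with a total semantics.)
-/

namespace Pool.Agent.H49.KT

open Turing Function

/-- programs over stacks indexed by `K` with alphabets `Γ k` and with memory `σ` -/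
inductive Cmd (K σ : Type) (Γ : K → Type) : Type
  | push (k : K) (f : σ → Γ k) : Cmd K σ Γ
  | pop (k : K) (f : σ → Option (Γ k) → σ) : Cmd K σ Γ
  | peek (k : K) (f : σ → Option (Γ k) → σ) : Cmd K σ Γ
  | load (f : σ → σ) : Cmd K σ Γ
  | seq (c₁ c₂ : Cmd K σ Γ) : Cmd K σ Γ
  | ite (p : σ → Bool) (c₁ c₂ : Cmd K σ Γ) : Cmd K σ Γ
  | wh (p : σ → Bool) (c : Cmd K σ Γ) : Cmd K σ Γ
  /-- while stack `k` is not empty: pop its top `x`, update the memory by `f`, run `c`;
  finally update the memory by `g` -/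
  | loop (k : K) (f : σ → Γ k → σ) (g : σ → σ) (c : Cmd K σ Γ) : Cmd K σ Γ

/-- memory and stacks -/
structure St (K σ : Type) (Γ : K → Type) where
  v : σ
  S : ∀ k, List (Γ k)

variable {K σ : Type} {Γ : K → Type}

/-- big-step semantics with the number of machine steps -/
inductive Run [DecidableEq K] : Cmd K σ Γ → St K σ Γ → St K σ Γ → ℕ → Prop
  | push (k : K) (f : σ → Γ k) (s : St K σ Γ) :
      Run (.push k f) s ⟨s.v, update s.S k (f s.v :: s.S k)⟩ 1
  | pop (k : K) (f : σ → Option (Γ k) → σ) (s : St K σ Γ) :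
      Run (.pop k f) s ⟨f s.v (s.S k).head?, update s.S k (s.S k).tail⟩ 1
  | peek (k : K) (f : σ → Option (Γ k) → σ) (s : St K σ Γ) :
      Run (.peek k f) s ⟨f s.v (s.S k).head?, s.S⟩ 1
  | load (f : σ → σ) (s : St K σ Γ) : Run (.load f) s ⟨f s.v, s.S⟩ 1
  | seq {c₁ c₂ : Cmd K σ Γ} {s s' s'' : St K σ Γ} {n m : ℕ} :
      Run c₁ s s' n → Run c₂ s' s'' m → Run (.seq c₁ c₂) s s'' (n + m)
  | ite_true {p : σ → Bool} {c₁ c₂ : Cmd K σ Γ} {s s' : St K σ Γ} {n : ℕ} :
      p s.v = true → Run c₁ s s' n → Run (.ite p c₁ c₂) s s' (n + 1)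
  | ite_false {p : σ → Bool} {c₁ c₂ : Cmd K σ Γ} {s s' : St K σ Γ} {n : ℕ} :
      p s.v = false → Run c₂ s s' n → Run (.ite p c₁ c₂) s s' (n + 1)
  | wh_false {p : σ → Bool} {c : Cmd K σ Γ} {s : St K σ Γ} :
      p s.v = false → Run (.wh p c) s s 1
  | wh_true {p : σ → Bool} {c : Cmd K σ Γ} {s s' s'' : St K σ Γ} {n m : ℕ} :
      p s.v = true → Run c s s' n → Run (.wh p c) s' s'' m → Run (.wh p c) s s'' (n + m + 1)
  | loop_nil {k : K} {f : σ → Γ k → σ} {g : σ → σ} {c : Cmd K σ Γ} {s : St K σ Γ} :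
      s.S k = [] → Run (.loop k f g c) s ⟨g s.v, s.S⟩ 1
  | loop_cons {k : K} {f : σ → Γ k → σ} {g : σ → σ} {c : Cmd K σ Γ} {s s' s'' : St K σ Γ}
      {x : Γ k} {l : List (Γ k)} {n m : ℕ} :
      s.S k = x :: l → Run c ⟨f s.v x, update s.S k l⟩ s' n → Run (.loop k f g c) s' s'' m →
      Run (.loop k f g c) s s'' (n + m + 1)

/-- labels of the compiled program -/
def Lab : Cmd K σ Γ → Type
  | .push _ _ => Unit
  | .pop _ _ => Unit
  | .peek _ _ => Unit
  | .load _ => Unit
  | .seq c₁ c₂ => Lab c₁ ⊕ Lab c₂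
  | .ite _ c₁ c₂ => Option (Lab c₁ ⊕ Lab c₂)
  | .wh _ c => Option (Lab c)
  | .loop _ _ _ c => Option (Lab c)

instance labFintype : (c : Cmd K σ Γ) → Fintype (Lab c)
  | .push _ _ => inferInstanceAs (Fintype Unit)
  | .pop _ _ => inferInstanceAs (Fintype Unit)
  | .peek _ _ => inferInstanceAs (Fintype Unit)
  | .load _ => inferInstanceAs (Fintype Unit)
  | .seq c₁ c₂ =>
    haveI := labFintype c₁
    haveI := labFintype c₂
    inferInstanceAs (Fintype (Lab c₁ ⊕ Lab c₂))
  | .ite _ c₁ c₂ =>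
    haveI := labFintype c₁
    haveI := labFintype c₂
    inferInstanceAs (Fintype (Option (Lab c₁ ⊕ Lab c₂)))
  | .wh _ c =>
    haveI := labFintype c
    inferInstanceAs (Fintype (Option (Lab c)))
  | .loop _ _ _ c =>
    haveI := labFintype c
    inferInstanceAs (Fintype (Option (Lab c)))

/-- entry label -/
def entry : (c : Cmd K σ Γ) → Lab c
  | .push _ _ => ()
  | .pop _ _ => ()
  | .peek _ _ => ()
  | .load _ => ()
  | .seq c₁ _ => Sum.inl (entry c₁)
  | .ite _ _ _ => none
  | .wh _ _ => none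
  | .loop _ _ _ _ => none

/-- compilation to TM2 statements; the machine memory is `σ × Bool`, the second component is used
only inside one statement and is `false` between statements -/
def comp {Λ : Type} : (c : Cmd K σ Γ) → (Lab c → Λ) → Λ → Lab c →
    TM2.Stmt Γ Λ (σ × Bool)
  | .push k f, _, nx, _ => .push k (fun v => f v.1) (.goto fun _ => nx)
  | .pop k f, _, nx, _ => .pop k (fun v x => (f v.1 x, false)) (.goto fun _ => nx)
  | .peek k f, _, nx, _ => .peek k (fun v x => (f v.1 x, false)) (.goto fun _ => nx)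
  | .load f, _, nx, _ => .load (fun v => (f v.1, false)) (.goto fun _ => nx)
  | .seq c₁ c₂, e, _, .inl l => comp c₁ (fun l => e (.inl l)) (e (.inr (entry c₂))) l
  | .seq _ c₂, e, nx, .inr l => comp c₂ (fun l => e (.inr l)) nx l
  | .ite p c₁ c₂, e, _, none =>
    .branch (fun v => p v.1) (.goto fun _ => e (some (.inl (entry c₁))))
      (.goto fun _ => e (some (.inr (entry c₂))))
  | .ite _ c₁ _, e, nx, some (.inl l) => comp c₁ (fun l => e (some (.inl l))) nx l
  | .ite _ _ c₂, e, nx, some (.inr l) => comp c₂ (fun l => e (some (.inr l))) nx l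
  | .wh p c, e, nx, none =>
    .branch (fun v => p v.1) (.goto fun _ => e (some (entry c))) (.goto fun _ => nx)
  | .wh _ c, e, _, some l => comp c (fun l => e (some l)) (e none) l
  | .loop k f g c, e, nx, none =>
    .pop k (fun v x => match x with
      | some x => (f v.1 x, true)
      | none => (g v.1, false))
      (.branch (fun v => v.2)
        (.load (fun v => (v.1, false)) (.goto fun _ => e (some (entry c))))
        (.goto fun _ => nx))
  | .loop _ _ _ c, e, _, some l => comp c (fun l => e (some l)) (e none) l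

/-- the bundled machine running `c`, then setting the memory to `init` and halting -/
def machine [DecidableEq K] [Fintype K] [Fintype σ] (c : Cmd K σ Γ) (i o : K) [Fintype (Γ i)]
    (init : σ) : FinTM2 where
  K := K
  k₀ := i
  k₁ := o
  Γ := Γ
  Λ := Option (Lab c)
  main := some (entry c)
  ΛFin := inferInstance
  σ := σ × Bool
  initialState := (init, false)
  Γk₀Fin := inferInstance
  m
    | none => .load (fun _ => (init, false)) .halt
    | some l => comp c some none l

/-! Total semantics of the programs without `wh`. -/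

/-- `loop` on the list `l` with body function `F` -/
def itS {k : K} (F : St K σ Γ → St K σ Γ) (f : σ → Γ k → σ) :
    List (Γ k) → St K σ Γ → St K σ Γ
  | [], s => s
  | x :: l, s => itS F f l (F ⟨f s.v x, s.S⟩)

/-- cost of `loop` on the list `l` with body function `F` and body cost `C` -/
def itC {k : K} (F : St K σ Γ → St K σ Γ) (C : St K σ Γ → ℕ) (f : σ → Γ k → σ) :
    List (Γ k) → St K σ Γ → ℕ
  | [], _ => 1
  | x :: l, s => C ⟨f s.v x, s.S⟩ + itC F C f l (F ⟨f s.v x, s.S⟩) + 1

/-- the result of a program without `wh` whose loop bodies do not use their loop stack -/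
def den [DecidableEq K] : Cmd K σ Γ → St K σ Γ → St K σ Γ
  | .push k f, s => ⟨s.v, update s.S k (f s.v :: s.S k)⟩
  | .pop k f, s => ⟨f s.v (s.S k).head?, update s.S k (s.S k).tail⟩
  | .peek k f, s => ⟨f s.v (s.S k).head?, s.S⟩
  | .load f, s => ⟨f s.v, s.S⟩
  | .seq c₁ c₂, s => den c₂ (den c₁ s)
  | .ite p c₁ c₂, s => bif p s.v then den c₁ s else den c₂ s
  | .wh _ _, s => s
  | .loop k f g c, s =>
    let s' := itS (den c) f (s.S k) ⟨s.v, update s.S k []⟩
    ⟨g s'.v, s'.S⟩

/-- its number of steps -/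
def cost [DecidableEq K] : Cmd K σ Γ → St K σ Γ → ℕ
  | .push _ _, _ => 1
  | .pop _ _, _ => 1
  | .peek _ _, _ => 1
  | .load _, _ => 1
  | .seq c₁ c₂, s => cost c₁ s + cost c₂ (den c₁ s)
  | .ite p c₁ c₂, s => (bif p s.v then cost c₁ s else cost c₂ s) + 1
  | .wh _ _, _ => 0
  | .loop k f _ c, s => itC (den c) (cost c) f (s.S k) ⟨s.v, update s.S k []⟩

/-- stack `k` is not used -/
def Free (k : K) : Cmd K σ Γ → Prop
  | .push k' _ => k' ≠ k
  | .pop k' _ => k' ≠ k
  | .peek k' _ => k' ≠ k
  | .load _ => True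
  | .seq c₁ c₂ => Free k c₁ ∧ Free k c₂
  | .ite _ c₁ c₂ => Free k c₁ ∧ Free k c₂
  | .wh _ c => Free k c
  | .loop k' _ _ c => k' ≠ k ∧ Free k c

/-- no `wh`, and loop bodies do not use their loop stack -/
def WF : Cmd K σ Γ → Prop
  | .push _ _ => True
  | .pop _ _ => True
  | .peek _ _ => True
  | .load _ => True
  | .seq c₁ c₂ => WF c₁ ∧ WF c₂
  | .ite _ c₁ c₂ => WF c₁ ∧ WF c₂
  | .wh _ _ => False
  | .loop k _ _ c => Free k c ∧ WF c

end Pool.Agent.H49.KT
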