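import Pool.Agent.H49.KT.Targets

namespace Pool.Agent.H49.KT

theorem pf_MAIN : T_UNI → T_SIM → T_LOW → T_NP → Main := by
  intro hU hS hL hN e U₀ h₀
  obtain ⟨e', he'⟩ := hU e U₀ h₀
  obtain ⟨C, hC⟩ := hS U₀
  exact ⟨mod U₀, e', C, he', hC, hL e U₀ h₀, hN e _ (hL e U₀ h₀)⟩

end Pool.Agent.H49.KT
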