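import Pool.Agent.H49.KT.Comp
import Pool.Agent.H49.KT.Defs

/-!
The program of the modified universal machine.
-/

namespace Pool.Agent.H49.KT

open Turing Function

/-- finite memory: label and memory of the simulated machine, four bits, parsing mode -/
structure Mem (Λ σ : Type) where
  l : Option Λ
  u : σ
  a : Bool
  b : Bool
  f : Bool
  g : Bool
  mode : Fin 3

section setters

variable {Λ σ : Type}

@[simps] def Mem.sa (v : Mem Λ σ) (a : Bool) : Mem Λ σ := ⟨v.l, v.u, a, v.b, v.f, v.g, v.mode⟩

@[simps] def Mem.sb (v : Mem Λ σ) (b : Bool) : Mem Λ σ := ⟨v.l, v.u, v.a, b, v.f, v.g, v.mode⟩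

@[simps] def Mem.sf (v : Mem Λ σ) (f : Bool) : Mem Λ σ := ⟨v.l, v.u, v.a, v.b, f, v.g, v.mode⟩

@[simps] def Mem.sbg (v : Mem Λ σ) (b g : Bool) : Mem Λ σ := ⟨v.l, v.u, v.a, b, v.f, g, v.mode⟩

@[simps] def Mem.sag (v : Mem Λ σ) (a g : Bool) : Mem Λ σ := ⟨v.l, v.u, a, v.b, v.f, g, v.mode⟩

@[simps] def Mem.sm (v : Mem Λ σ) (m : Fin 3) : Mem Λ σ := ⟨v.l, v.u, v.a, v.b, v.f, v.g, m⟩

@[simps] def Mem.slu (v : Mem Λ σ) (l : Option Λ) (u : σ) : Mem Λ σ :=
  ⟨l, u, v.a, v.b, v.f, v.g, v.mode⟩

@[simp] theorem Mem.sa_sa (v : Mem Λ σ) (a a' : Bool) : (v.sa a).sa a' = v.sa a' := rfl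

@[simp] theorem Mem.sa_sbg (v : Mem Λ σ) (a b g : Bool) :
    (v.sa a).sbg b g = (v.sbg b g).sa a := rfl

end setters

def Mem.equiv (Λ σ : Type) :
    Mem Λ σ ≃ Option Λ × σ × Bool × Bool × Bool × Bool × Fin 3 where
  toFun v := (v.l, v.u, v.a, v.b, v.f, v.g, v.mode)
  invFun v := ⟨v.1, v.2.1, v.2.2.1, v.2.2.2.1, v.2.2.2.2.1, v.2.2.2.2.2.1, v.2.2.2.2.2.2⟩
  left_inv _ := rfl
  right_inv _ := rfl

instance (Λ σ : Type) [Fintype Λ] [Fintype σ] : Fintype (Mem Λ σ) :=
  Fintype.ofEquiv _ (Mem.equiv Λ σ).symm

/-- names of the working stacks -/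
inductive Nm
  | inp | out | cr | pr | p | q | n | n' | lam | m | m' | all | all' | d | d' | e | clk | clk'
  | v0 | v1 | t | t' | w | w'
  deriving DecidableEq, Fintype

section

variable (U : BM)

abbrev KK : Type := U.tm.K ⊕ Nm

@[reducible] def GG : KK U → Type
  | .inl k => U.tm.Γ k
  | .inr _ => Bool

abbrev MM : Type := Mem U.tm.Λ U.tm.σ

abbrev CC : Type := Cmd (KK U) (MM U) (GG U)

abbrev SS : Type := St (KK U) (MM U) (GG U)

instance (x : Nm) : Fintype (GG U (.inr x)) := inferInstanceAs (Fintype Bool)

instance : DecidableEq (KK U) :=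
  haveI := U.tm.kDecidableEq
  inferInstanceAs (DecidableEq (U.tm.K ⊕ Nm))

instance : Fintype (KK U) :=
  haveI := U.tm.kFin
  inferInstanceAs (Fintype (U.tm.K ⊕ Nm))

instance : Fintype (MM U) :=
  haveI := U.tm.ΛFin
  haveI := U.tm.σFin
  inferInstanceAs (Fintype (Mem U.tm.Λ U.tm.σ))

variable {U}

/-- a state from its parts -/
def mkS (v : MM U) (u : ∀ k, List (U.tm.Γ k)) (z : Nm → List Bool) : SS U :=
  ⟨v, fun
    | .inl k => u k
    | .inr x => z x⟩

def skip : CC U := .load id

def pushc (x : Nm) (b : Bool) : CC U := .push (.inr x) (fun _ => b)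

def pusha (x : Nm) : CC U := .push (.inr x) (fun v => v.a)

def pushb (x : Nm) : CC U := .push (.inr x) (fun v => v.b)

/-- pop to `b`, success flag `g` -/
def popn (x : Nm) : CC U := .pop (.inr x) (fun v (o : Option Bool) =>
  v.sbg (o.getD false) o.isSome)

/-- pop to `a`, success flag `g` -/
def popa (x : Nm) : CC U := .pop (.inr x) (fun v (o : Option Bool) =>
  v.sag (o.getD false) o.isSome)

/-- pop the output stack of the simulated machine to `b`, success flag `g` -/
def popk : CC U := .pop (.inl U.tm.k₁) (fun v (o : Option (U.tm.Γ U.tm.k₁)) =>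
  v.sbg ((o.map U.outputAlphabet).getD false) o.isSome)

/-- push `a` on the input stack of the simulated machine -/
def pushk : CC U := .push (.inl U.tm.k₀) (fun v => U.inputAlphabet.symm v.a)

/-- loop on a working stack, the current element is `a` -/
def lp (x : Nm) (c : CC U) : CC U :=
  .loop (.inr x) (fun v (y : Bool) => v.sa y) (fun v => v.sa false) c

def mv (x y : Nm) : CC U := lp x (pusha y)

def mv2 (x y z : Nm) : CC U := lp x (.seq (pusha y) (pusha z))

def clr (x : Nm) : CC U := lp x skip

/-- one statement of the simulated machine -/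
def tr : TM2.Stmt U.tm.Γ U.tm.Λ U.tm.σ → CC U
  | .push k f q => .seq (.push (.inl k) (fun v => f v.u)) (tr q)
  | .peek k f q => .seq (.peek (.inl k) (fun v (o : Option (U.tm.Γ k)) =>
      v.slu v.l (f v.u o))) (tr q)
  | .pop k f q => .seq (.pop (.inl k) (fun v (o : Option (U.tm.Γ k)) =>
      v.slu v.l (f v.u o))) (tr q)
  | .load f q => .seq (.load (fun v => v.slu v.l (f v.u))) (tr q)
  | .branch p q₁ q₂ => .ite (fun v => p v.u) (tr q₁) (tr q₂)
  | .goto f => .load (fun v => v.slu (some (f v.u)) v.u)
  | .halt => .load (fun v => v.slu none v.u)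

open Classical in
/-- dispatch on the label -/
noncomputable def disp : List U.tm.Λ → CC U
  | [] => skip
  | l :: ls => .ite (fun v => decide (v.l = some l)) (tr (U.tm.m l)) (disp ls)

/-- one step of the simulated machine -/
noncomputable def stepU : CC U :=
  haveI := U.tm.ΛFin
  disp Finset.univ.toList

def start : CC U := .load (fun v => v.slu (some U.tm.main) U.tm.initialState)

def clearL : List U.tm.K → CC U
  | [] => skip
  | k :: ks => .seq (.loop (.inl k) (fun v _ => v) id skip) (clearL ks)

/-- empty the stacks of the simulated machine and reset its memory -/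
noncomputable def clearU : CC U :=
  haveI := U.tm.kFin
  .seq (clearL Finset.univ.toList)
    (.load (fun v => v.slu none U.tm.initialState))

/-- double a unary stack -/
def dbl (x y : Nm) : CC U := .seq (lp x (.seq (pushc y true) (pushc y true))) (mv y x)

/-- multiply a unary stack by `2 ^ |m|` -/
def pow (x y : Nm) : CC U := .seq (lp .m (.seq (pushc .m' true) (dbl x y))) (mv .m' .m)

/-- clock with `2 ^ (|m| - |d|)` entries -/
def mkClk : CC U :=
  .seq (pushc .clk true) (.seq (mv2 .d .d' .e) (.seq (mv .d' .d)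
    (.seq (lp .m (.seq (pushc .m' true) (.seq (popn .e) (.ite (fun v => v.g) skip
      (dbl .clk .clk'))))) (.seq (mv .m' .m) (clr .e)))))

/-- load the input `d.reverse` -/
def loadIn : CC U := .seq (lp .d (.seq (pusha .d') pushk)) (mv .d' .d)

/-- run the simulated machine until it halts or the clock is empty -/
noncomputable def runClk : CC U :=
  .loop (.inr .clk) (fun v _ => v) id (.ite (fun v => v.l.isSome) stepU skip)

/-- compare the output with `p`, vote for the next bit -/
def cmp : CC U :=
  .seq (.load (fun v => v.sf true))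
    (.seq (lp .p (.seq (pusha .q) (.seq popk
      (.load (fun v => v.sf (v.f && v.g && (v.a == v.b)))))))
    (.seq popk (.seq (.ite (fun v => v.f && v.g)
      (.ite (fun v => v.b) (pushc .v1 true) (pushc .v0 true)) skip) (mv .q .p))))

/-- next string -/
def incD : CC U :=
  .seq (.load (fun v => v.sf true))
    (.seq (lp .d (.ite (fun v => v.f)
      (.ite (fun v => v.a) (pushc .d' false)
        (.seq (pushc .d' true) (.load (fun v => v.sf false))))
      (pusha .d')))
    (.seq (.ite (fun v => v.f) (pushc .d' false) skip) (mv .d' .d)))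

noncomputable def body : CC U :=
  .seq (pushc .all' true) (.seq mkClk (.seq loadIn (.seq start (.seq runClk
    (.seq cmp (.seq clearU incD))))))

/-- choose the bit with fewer votes, into `b` -/
def choose : CC U :=
  .seq (lp .v0 (popn .v1)) (.seq (popn .v1)
    (.seq (.load (fun v => v.sb (!v.g))) (clr .v1)))

noncomputable def round : CC U :=
  .seq (mv .pr .p) (.seq (lp .all body) (.seq (mv .all' .all) (.seq (clr .d)
    (.seq choose (.seq (mv .p .pr) (pushb .pr))))))

/-- treatment of one input bit -/
def pbody : CC U :=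
  .ite (fun v => v.mode == 0)
    (.ite (fun v => v.a) (.load (fun v => v.sm 1))
      (.seq (pushc .pr false) (.load (fun v => v.sm 2))))
    (.ite (fun v => v.mode == 1)
      (.seq (pushc .pr true) (.seq (pusha .pr) (.seq (pusha .cr)
        (.load (fun v => v.sm 0)))))
      (.seq (pushc .lam true) (.seq (.load (fun v => v.sb v.a))
        (.seq (dbl .n .n') (.ite (fun v => v.b) (pushc .n true) skip)))))

def parse : CC U := lp .inp pbody

def prep : CC U :=
  .seq (mv2 .n .n' .m) (.seq (mv .n' .n)
    (lp .lam (.seq (popn .m) (.seq (popn .m) (.seq (popn .m) (.seq (popn .m) (popn .m)))))))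

def rnds : CC U := .seq (lp .pr (.seq (pusha .p) (popn .n))) (mv .p .pr)

def mkAll : CC U := .seq (pushc .all true) (.seq (pushc .all true) (pow .all .all'))

noncomputable def mainL : CC U := lp .n round

noncomputable def decision : CC U :=
  .seq (lp .pr (.seq (pusha .p) pushk)) (.seq (lp .cr pushk) (.seq mkClk (.seq start
    (.seq runClk (.seq popk (.load (fun v =>
      v.sf (v.b && v.g && v.l.isNone && (v.mode == 2)))))))))

noncomputable def final : CC U :=
  .seq clearU (.seq (.ite (fun v => v.f) (.seq (mv .p .q) (mv .q .out)) (clr .p))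
    (.seq (clr .m) (clr .all)))

noncomputable def special : CC U :=
  .seq parse (.seq prep (.seq rnds (.seq mkAll (.seq mainL (.seq decision final)))))

def mulN : CC U :=
  .seq (lp .w (.seq (lp .n (.seq (pushc .n' true) (.seq (pushc .w' true) (pushc .w' true))))
    (mv .n' .n))) (mv .w' .w)

def mulT : CC U :=
  .seq (lp .w (.seq (lp .t (.seq (pushc .t' true) (pushc .w' true))) (mv .t' .t))) (clr .w')

noncomputable def ordStart : CC U := .seq (mv .inp .q) (.seq (lp .q pushk) start)

noncomputable def ordRun : CC U :=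
  .wh (fun v => v.l.isSome) (.seq (pushc .t true) stepU)

noncomputable def ordEnd : CC U :=
  .seq (.loop (.inl U.tm.k₁) (fun v y => v.sa (U.outputAlphabet y))
      (fun v => v.sa false) (.seq (pusha .q) (pushc .n true)))
    (.seq clearU (.seq (pushc .w true) (.seq mulN (.seq mulN (.seq mulN (.seq mulN (.seq mulN
      (.seq mulT (.seq (clr .n) (.seq (clr .t) (mv .q .out)))))))))))

noncomputable def top : CC U :=
  .seq (popa .inp) (.ite (fun v => v.g)
    (.ite (fun v => v.a) special (.seq ordStart (.seq ordRun ordEnd))) skip)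

variable (U) in
def mem₀ : MM U := ⟨none, U.tm.initialState, false, false, false, false, 0⟩

variable (U) in
/-- the modified machine -/
noncomputable def mod : BM where
  tm := machine (top (U := U)) (.inr .inp) (.inr .out) (mem₀ U)
  inputAlphabet := Equiv.refl Bool
  outputAlphabet := Equiv.refl Bool

end

end Pool.Agent.H49.KT
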