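import Pool.Agent.H49.KT.Rules

/-!
The functions computed by the pieces of the program.
-/

namespace Pool.Agent.H49.KT

open Turing Function

/-- successor in the enumeration of all strings by length -/
def sc : List Bool → List Bool
  | [] => [false]
  | false :: l => true :: l
  | true :: l => false :: sc l

/-- the `i`-th string -/
def ds (i : ℕ) : List Bool := sc^[i] []

variable (U : BM)

/-- configurations of the simulated machine -/
abbrev CF : Type := TM2.Cfg U.tm.Γ U.tm.Λ U.tm.σ

/-- one step, halted configurations do not change -/
def fs (c : CF U) : CF U := (TM2.step U.tm.m c).getD c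

/-- start configuration with input `x` -/
def ini (x : List Bool) : CF U :=
  ⟨some U.tm.main, U.tm.initialState,
    update (fun _ => []) U.tm.k₀ (x.map U.inputAlphabet.symm)⟩

/-- configuration at time `T` on input `x` -/
def at' (T : ℕ) (x : List Bool) : CF U := (fs U)^[T] (ini U x)

/-- content of the output stack at time `T` on input `x` -/
def rawOut (T : ℕ) (x : List Bool) : List Bool :=
  ((at' U T x).stk U.tm.k₁).map U.outputAlphabet

/-- output of the `i`-th program within its time bound -/
def oo (m i : ℕ) : List Bool := rawOut U (2 ^ (m - (ds i).length)) (ds i).reverse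

/-- number of the programs with index below `N` whose output extends `P` -/
def cntN (m N : ℕ) (P : List Bool) : ℕ := ((Finset.range N).filter (fun i => P <+: oo U m i)).card

def cnt (m : ℕ) (P : List Bool) : ℕ := cntN U m (2 ^ (m + 1)) P

/-- the next bit -/
def pick (m : ℕ) (P : List Bool) : Bool :=
  decide (cnt U m (P ++ [true]) ≤ cnt U m (P ++ [false]))

/-- `r` greedy extensions -/
def gr (m : ℕ) : ℕ → List Bool → List Bool
  | 0, P => P
  | r + 1, P => gr m r (P ++ [pick U m P])

/-- state of the parser -/
structure PS where
  mode : Fin 3
  cr : List Bool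
  pr : List Bool
  n : ℕ
  lam : ℕ

/-- one input bit -/
def pstep (s : PS) (a : Bool) : PS :=
  if s.mode = 0 then
    if a then ⟨1, s.cr, s.pr, s.n, s.lam⟩ else ⟨2, s.cr, false :: s.pr, s.n, s.lam⟩
  else if s.mode = 1 then ⟨0, a :: s.cr, a :: true :: s.pr, s.n, s.lam⟩
  else ⟨s.mode, s.cr, s.pr, 2 * s.n + a.toNat, s.lam + 1⟩

/-- result of the parser -/
def prs (x : List Bool) : PS := x.foldl pstep ⟨0, [], [], 0, 0⟩

/-- self-delimiting code of `c` -/
def en (c : List Bool) : List Bool := c.flatMap (fun b => [true, b]) ++ [false]

/-- the special program for `c` and `n` -/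
def code (c : List Bool) (n : ℕ) : List Bool := en c ++ n.bits.reverse

/-- the simulated machine accepts `x` within `T` steps -/
def acc (T : ℕ) (x : List Bool) : Bool :=
  (rawOut U T x).head?.getD false && (at' U T x).l.isNone

/-- the string found by the special program -/
def ww (x : List Bool) : List Bool :=
  gr U ((prs x).n - 5 * (prs x).lam) ((prs x).n - (prs x).pr.length) (prs x).pr.reverse

/-- output of the special branch on `x` -/
def so (x : List Bool) : List Bool :=
  if acc U (2 ^ ((prs x).n - 5 * (prs x).lam)) ((prs x).cr.reverse ++ ww U x) &&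
    ((prs x).mode == 2) then ww U x else []

/-- sum of the heights of the stacks of the simulated machine -/
def hs (u : UU U) : ℕ :=
  haveI := U.tm.kFin
  ∑ k, (u k).length

/-- all working stacks empty -/
def z₀ : Nm → List Bool := fun _ => []

end Pool.Agent.H49.KT
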