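import Pool.Agent.H49.KT.Prog

/-!
Basic rules for the specifications of the pieces of the program.
-/

namespace Pool.Agent.H49.KT

open Turing Function

variable {U : BM}

/-- stacks of the simulated machine -/
abbrev UU (U : BM) : Type := ∀ k, List (U.tm.Γ k)

@[simp] theorem mkS_v (v : MM U) (u : UU U) (z : Nm → List Bool) : (mkS v u z).v = v := rfl

@[simp] theorem mkS_inl (v : MM U) (u : UU U) (z : Nm → List Bool) (k : U.tm.K) :
    (mkS v u z).S (.inl k) = u k := rfl

@[simp] theorem mkS_inr (v : MM U) (u : UU U) (z : Nm → List Bool) (x : Nm) :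
    (mkS v u z).S (.inr x) = z x := rfl

theorem upd_inr (v v' : MM U) (u : UU U) (z : Nm → List Bool) (x : Nm) (l : List Bool) :
    (⟨v', update (mkS v u z).S (.inr x) l⟩ : SS U) = mkS v' u (update z x l) := by
  refine St.ext' rfl (funext fun k => ?_)
  rcases k with k | y
  · show update (mkS v u z).S (.inr x) l (.inl k) = u k
    rw [update_of_ne (by simp)]
    rfl
  · show update (mkS v u z).S (.inr x) l (.inr y) = update z x l y
    by_cases h : y = x
    · subst h
      rw [update_self, update_self]
    · rw [update_of_ne (by simpa using h), update_of_ne h]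
      rfl

theorem upd_inl (v v' : MM U) (u : UU U) (z : Nm → List Bool) (k : U.tm.K)
    (l : List (U.tm.Γ k)) :
    (⟨v', update (mkS v u z).S (.inl k) l⟩ : SS U) = mkS v' (update u k l) z := by
  refine St.ext' rfl (funext fun k' => ?_)
  rcases k' with k' | y
  · show update (mkS v u z).S (.inl k) l (.inl k') = update u k l k'
    by_cases h : k' = k
    · subst h
      rw [update_self, update_self]
    · rw [update_of_ne (by simpa using h), update_of_ne h]
      rfl
  · show update (mkS v u z).S (.inl k) l (.inr y) = z y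
    rw [update_of_ne (by simp)]
    rfl

theorem st_eta (v v' : MM U) (u : UU U) (z : Nm → List Bool) :
    (⟨v', (mkS v u z).S⟩ : SS U) = mkS v' u z := rfl

/-- the label, the simulated memory and the mode are equal -/
def Reg (v v' : MM U) : Prop := v'.l = v.l ∧ v'.u = v.u ∧ v'.mode = v.mode

theorem Reg.refl (v : MM U) : Reg v v := ⟨rfl, rfl, rfl⟩

theorem Reg.trans {v v' v'' : MM U} (h : Reg v v') (h' : Reg v' v'') : Reg v v'' :=
  ⟨h'.1.trans h.1, h'.2.1.trans h.2.1, h'.2.2.trans h.2.2⟩

variable (v : MM U) (u : UU U) (z : Nm → List Bool)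

theorem sp_skip : Spec skip (mkS v u z) (mkS v u z) 1 := Spec.load _ _

theorem sp_load (f : MM U → MM U) :
    Spec (.load f) (mkS v u z) (mkS (f v) u z) 1 := Spec.load _ _

theorem sp_pushc (x : Nm) (b : Bool) :
    Spec (pushc x b) (mkS v u z) (mkS v u (update z x (b :: z x))) 1 := by
  have h := Spec.push (K := KK U) (Γ := GG U) (.inr x) (fun _ : MM U => (b : Bool)) (mkS v u z)
  rw [upd_inr] at h
  exact h

theorem sp_pusha (x : Nm) :
    Spec (pusha x) (mkS v u z) (mkS v u (update z x (v.a :: z x))) 1 := by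
  have h := Spec.push (K := KK U) (Γ := GG U) (.inr x) (fun v : MM U => v.a) (mkS v u z)
  rw [upd_inr] at h
  exact h

theorem sp_pushb (x : Nm) :
    Spec (pushb x) (mkS v u z) (mkS v u (update z x (v.b :: z x))) 1 := by
  have h := Spec.push (K := KK U) (Γ := GG U) (.inr x) (fun v : MM U => v.b) (mkS v u z)
  rw [upd_inr] at h
  exact h

theorem sp_popn (x : Nm) :
    Spec (popn x) (mkS v u z)
      (mkS (v.sbg ((z x).head?.getD false) (z x).head?.isSome) u
        (update z x (z x).tail)) 1 := by
  have h := Spec.pop (K := KK U) (Γ := GG U) (.inr x) (fun (v : MM U) (o : Option Bool) =>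
    v.sbg (o.getD false) o.isSome) (mkS v u z)
  rw [upd_inr] at h
  exact h

theorem sp_popa (x : Nm) :
    Spec (popa x) (mkS v u z)
      (mkS (v.sag ((z x).head?.getD false) (z x).head?.isSome) u
        (update z x (z x).tail)) 1 := by
  have h := Spec.pop (K := KK U) (Γ := GG U) (.inr x) (fun (v : MM U) (o : Option Bool) =>
    v.sag (o.getD false) o.isSome) (mkS v u z)
  rw [upd_inr] at h
  exact h

theorem sp_popk :
    Spec popk (mkS v u z)
      (mkS (v.sbg (((u U.tm.k₁).head?.map U.outputAlphabet).getD false)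
        (u U.tm.k₁).head?.isSome) (update u U.tm.k₁ (u U.tm.k₁).tail) z) 1 := by
  have h := Spec.pop (K := KK U) (Γ := GG U) (.inl U.tm.k₁)
    (fun (v : MM U) (o : Option (U.tm.Γ U.tm.k₁)) =>
    v.sbg ((o.map U.outputAlphabet).getD false) o.isSome) (mkS v u z)
  rw [upd_inl] at h
  exact h

theorem sp_pushk :
    Spec pushk (mkS v u z)
      (mkS v (update u U.tm.k₀ (U.inputAlphabet.symm v.a :: u U.tm.k₀)) z) 1 := by
  have h := Spec.push (K := KK U) (Γ := GG U) (.inl U.tm.k₀)
    (fun v : MM U => U.inputAlphabet.symm v.a) (mkS v u z)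
  rw [upd_inl] at h
  exact h

/-- rule for `lp`: the memory is given up to the register `a` -/
theorem sp_lp {v : MM U} {u : UU U} {z : Nm → List Bool} {x : Nm} {c : CC U} (l : List Bool)
    (hl : z x = l) (V : ℕ → MM U) (u' : ℕ → UU U) (z' : ℕ → Nm → List Bool) (T : ℕ → ℕ)
    (hV : ∃ a, v = (V 0).sa a) (hu : u' 0 = u) (hz : z' 0 = update z x [])
    (hstep : ∀ i (hi : i < l.length), ∃ a,
      Spec c (mkS ((V i).sa l[i]) (u' i) (z' i))
        (mkS ((V (i + 1)).sa a) (u' (i + 1)) (z' (i + 1))) (T i)) :
    Spec (lp x c) (mkS v u z) (mkS ((V l.length).sa false) (u' l.length) (z' l.length))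
      (1 + ∑ i ∈ Finset.range l.length, (T i + 1)) := by
  have key : ∀ (l : List Bool) (V : ℕ → MM U) (u' : ℕ → UU U) (z' : ℕ → Nm → List Bool)
      (T : ℕ → ℕ) (a : Bool),
      (∀ i (hi : i < l.length), ∃ a,
      Spec c (mkS ((V i).sa l[i]) (u' i) (z' i))
        (mkS ((V (i + 1)).sa a) (u' (i + 1)) (z' (i + 1))) (T i)) →
      (∃ a', itS (k := (.inr x : KK U)) (Γ := GG U) (den c)
          (fun v (y : Bool) => v.sa y) l (mkS ((V 0).sa a) (u' 0) (z' 0)) =
        mkS ((V l.length).sa a') (u' l.length) (z' l.length)) ∧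
      itC (k := (.inr x : KK U)) (Γ := GG U) (den c) (cost c)
          (fun v (y : Bool) => v.sa y) l (mkS ((V 0).sa a) (u' 0) (z' 0)) ≤
        1 + ∑ i ∈ Finset.range l.length, (T i + 1) := by
    intro l
    induction l with
    | nil => intro V u' z' T a _; exact ⟨⟨a, rfl⟩, by simp [itC]⟩
    | cons y l ih =>
      intro V u' z' T a h
      obtain ⟨a₁, h0⟩ := h 0 (by simp)
      simp only [List.getElem_cons_zero, zero_add] at h0
      obtain ⟨⟨a', e1⟩, e2⟩ := ih (fun i => V (i + 1)) (fun i => u' (i + 1))
        (fun i => z' (i + 1)) (fun i => T (i + 1)) a₁ (fun i hi => by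
        have := h (i + 1) (by simpa using hi)
        simpa using this)
      simp only [zero_add] at e1 e2
      refine ⟨⟨a', ?_⟩, ?_⟩
      · simp only [itS, mkS_v, st_eta]
        rw [Mem.sa_sa, h0.1]
        exact e1
      · simp only [itC, mkS_v, st_eta, List.length_cons]
        rw [Mem.sa_sa, h0.1, Finset.sum_range_succ']
        have h2 := h0.2
        omega
  obtain ⟨a, hV⟩ := hV
  obtain ⟨⟨a', e1⟩, e2⟩ := key l V u' z' T a hstep
  subst hl
  have e0 : (⟨(mkS v u z).v, update (mkS v u z).S (.inr x) []⟩ : SS U) =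
      mkS ((V 0).sa a) (u' 0) (z' 0) := by
    rw [upd_inr, mkS_v, hV, hu, hz]
  refine ⟨?_, ?_⟩
  · simp only [lp, den]
    rw [e0]
    simp only [mkS_inr]
    rw [e1]
    rfl
  · simp only [lp, cost]
    rw [e0]
    exact e2

theorem take_succ_rev (l : List Bool) (i : ℕ) (hi : i < l.length) :
    (l.take (i + 1)).reverse = l[i] :: (l.take i).reverse := by
  rw [List.take_succ_eq_append_getElem hi, List.reverse_append]
  rfl

theorem sp_mv {x y : Nm} (h : x ≠ y) :
    Spec (mv x y) (mkS v u z) (mkS (v.sa false) u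
      (update (update z x []) y ((z x).reverse ++ z y))) (2 * (z x).length + 1) := by
  have e := sp_lp (v := v) (u := u) (z := z) (x := x) (c := pusha y) (z x) rfl (fun _ => v)
    (fun _ => u) (fun i => update (update z x []) y (((z x).take i).reverse ++ z y)) (fun _ => 1)
    ⟨v.a, rfl⟩ rfl (by
      simp only [List.take_zero, List.reverse_nil, List.nil_append]
      rw [update_eq_iff]
      exact ⟨by rw [update_of_ne h.symm], fun _ _ => rfl⟩) (fun i hi => by
      refine ⟨(z x)[i], ?_⟩
      have e := sp_pusha (v.sa (z x)[i]) u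
        (update (update z x []) y (((z x).take i).reverse ++ z y)) y
      simp only [update_self, update_idem] at e
      rw [take_succ_rev _ _ hi, List.cons_append]
      exact e)
  simp only [List.take_length] at e
  refine e.mono ?_
  simp
  omega

theorem sp_clr {x : Nm} :
    Spec (clr x) (mkS v u z) (mkS (v.sa false) u (update z x []))
      (2 * (z x).length + 1) := by
  have e := sp_lp (v := v) (u := u) (z := z) (x := x) (c := skip) (z x) rfl (fun _ => v)
    (fun _ => u) (fun _ => update z x []) (fun _ => 1) ⟨v.a, rfl⟩ rfl rfl (fun i hi => by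
      exact ⟨(z x)[i], sp_skip _ _ _⟩)
  refine e.mono ?_
  simp
  omega

theorem sp_mv2 {x y y' : Nm} (h : x ≠ y) (h' : x ≠ y') (hy : y ≠ y') :
    Spec (mv2 x y y') (mkS v u z) (mkS (v.sa false) u
      (update (update (update z x []) y ((z x).reverse ++ z y)) y' ((z x).reverse ++ z y')))
      (3 * (z x).length + 1) := by
  have e := sp_lp (v := v) (u := u) (z := z) (x := x) (c := .seq (pusha y) (pusha y')) (z x) rfl
    (fun _ => v) (fun _ => u)
    (fun i => update (update (update z x []) y (((z x).take i).reverse ++ z y)) y'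
      (((z x).take i).reverse ++ z y')) (fun _ => 2)
    ⟨v.a, rfl⟩ rfl (by
      simp only [List.take_zero, List.reverse_nil, List.nil_append]
      funext k
      by_cases h1 : k = y'
      · subst h1; rw [update_self, update_of_ne h'.symm]
      · rw [update_of_ne h1]
        by_cases h2 : k = y
        · subst h2; rw [update_self, update_of_ne h.symm]
        · rw [update_of_ne h2]) (fun i hi => by
      refine ⟨(z x)[i], ?_⟩
      have e1 := sp_pusha (v.sa (z x)[i]) u
        (update (update (update z x []) y (((z x).take i).reverse ++ z y)) y'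
          (((z x).take i).reverse ++ z y')) y
      have e2 := e1.seq (sp_pusha _ _ _ y')
      rw [take_succ_rev _ _ hi, List.cons_append, List.cons_append]
      refine ⟨e2.1.trans (congrArg _ ?_), e2.2⟩
      funext k
      by_cases h1 : k = y'
      · subst h1; simp [hy.symm]
      · by_cases h2 : k = y
        · subst h2; simp [hy]
        · simp [h1, h2])
  simp only [List.take_length] at e
  refine e.mono ?_
  simp
  omega

/-- rule for `lp` with an invariant that does not depend on the register `a` -/
theorem sp_lp_inv {v : MM U} {u : UU U} {z : Nm → List Bool} {x : Nm} {c : CC U} (l : List Bool)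
    (hl : z x = l) (I : ℕ → MM U → UU U → (Nm → List Bool) → Prop) (T : ℕ → ℕ)
    (ha : ∀ i v u z a, I i v u z → I i (v.sa a) u z) (h0 : I 0 v u (update z x []))
    (hstep : ∀ i (hi : i < l.length) v u z, I i v u z → v.a = l[i] →
      ∃ v' u' z', I (i + 1) v' u' z' ∧ Spec c (mkS v u z) (mkS v' u' z') (T i)) :
    ∃ v' u' z', I l.length v' u' z' ∧ v'.a = false ∧
      Spec (lp x c) (mkS v u z) (mkS v' u' z') (1 + ∑ i ∈ Finset.range l.length, (T i + 1)) := by
  have key : ∀ (l : List Bool) (I : ℕ → MM U → UU U → (Nm → List Bool) → Prop) (T : ℕ → ℕ)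
      (v : MM U) (u : UU U) (z : Nm → List Bool),
      (∀ i v u z a, I i v u z → I i (v.sa a) u z) → I 0 v u z →
      (∀ i (hi : i < l.length) v u z, I i v u z → v.a = l[i] →
        ∃ v' u' z', I (i + 1) v' u' z' ∧ Spec c (mkS v u z) (mkS v' u' z') (T i)) →
      ∃ v' u' z', I l.length v' u' z' ∧
        itS (k := (.inr x : KK U)) (Γ := GG U) (den c)
          (fun v (y : Bool) => v.sa y) l (mkS v u z) = mkS v' u' z' ∧
        itC (k := (.inr x : KK U)) (Γ := GG U) (den c) (cost c)
          (fun v (y : Bool) => v.sa y) l (mkS v u z) ≤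
        1 + ∑ i ∈ Finset.range l.length, (T i + 1) := by
    intro l
    induction l with
    | nil => intro I T v u z _ h0 _; exact ⟨v, u, z, h0, rfl, by simp [itC]⟩
    | cons y l ih =>
      intro I T v u z ha h0 h
      obtain ⟨v₁, u₁, z₁, hI, hS⟩ := h 0 (by simp) (v.sa y) u z (ha 0 v u z y h0) rfl
      obtain ⟨v₂, u₂, z₂, hI2, e1, e2⟩ := ih (fun i => I (i + 1)) (fun i => T (i + 1)) v₁ u₁ z₁
        (fun i => ha (i + 1)) hI (fun i hi => by
        have := h (i + 1) (by simpa using hi)
        simpa using this)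
      refine ⟨v₂, u₂, z₂, by simpa using hI2, ?_, ?_⟩
      · simp only [itS, mkS_v, st_eta]
        rw [hS.1]
        exact e1
      · simp only [itC, mkS_v, st_eta, List.length_cons]
        rw [hS.1, Finset.sum_range_succ']
        have h2 := hS.2
        omega
  obtain ⟨v', u', z', hI, e1, e2⟩ := key l I T v u (update z x []) ha h0 hstep
  refine ⟨v'.sa false, u', z', ha _ _ _ _ _ hI, rfl, ?_, ?_⟩
  · subst hl
    simp only [lp, den]
    rw [upd_inr]
    simp only [mkS_inr, mkS_v]
    rw [e1]
    rfl
  · subst hl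
    simp only [lp, cost]
    rw [upd_inr]
    exact e2

theorem Spec.run {c : CC U} {s s' : SS U} {T : ℕ} (hc : WF c) (h : Spec c s s' T) :
    ∃ N ≤ T, Run c s s' N := by
  obtain ⟨rfl, h2⟩ := h
  exact ⟨_, h2, run_den c hc s⟩

end Pool.Agent.H49.KT
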