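import Pool.Agent.H49.KT.Pure

/-!
Targets of the board kt_modules.
-/

namespace Pool.Agent.H49.KT

open Turing Function Filter

/-- unary number -/
abbrev un (k : ℕ) : List Bool := List.replicate k true

/-- empty stacks of the simulated machine -/
def E₀ (U : BM) : UU U := fun _ => []

/-! ### pieces of the program -/

def T_DBL : Prop := ∀ (U : BM) (v : MM U) (u : UU U) (z : Nm → List Bool) (x y : Nm) (k : ℕ),
  x ≠ y → z x = un k → z y = [] →
    Spec (dbl x y) (mkS v u z) (mkS (v.sa false) u (update z x (un (2 * k)))) (7 * k + 2)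

def T_POW : Prop := ∀ (U : BM) (v : MM U) (u : UU U) (z : Nm → List Bool) (x y : Nm) (k r : ℕ),
  x ≠ y → x ≠ .m → x ≠ .m' → y ≠ .m → y ≠ .m' → z x = un k → z y = [] → z .m = un r →
    z .m' = [] →
    Spec (pow x y) (mkS v u z) (mkS (v.sa false) u (update z x (un (k * 2 ^ r))))
      (7 * k * 2 ^ r + 6 * r + 2)

def T_CLK : Prop := ∀ (U : BM) (v : MM U) (u : UU U) (z : Nm → List Bool) (r : ℕ),
  z .m = un r → z .m' = [] → z .clk = [] → z .clk' = [] → z .d' = [] → z .e = [] →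
    ∃ v', Reg v v' ∧ Spec mkClk (mkS v u z)
      (mkS v' u (update z .clk (un (2 ^ (r - (z .d).length)))))
      (7 * 2 ^ (r - (z .d).length) + 8 * r + 7 * (z .d).length + 10)

def T_LD : Prop := ∀ (U : BM) (v : MM U) (u : UU U) (z : Nm → List Bool),
  z .d' = [] →
    Spec loadIn (mkS v u z) (mkS (v.sa false)
      (update u U.tm.k₀ ((z .d).reverse.map U.inputAlphabet.symm ++ u U.tm.k₀)) z)
      (5 * (z .d).length + 2)

def T_STEP : Prop := ∀ U : BM, ∃ B : ℕ, ∀ (v : MM U) (u : UU U) (z : Nm → List Bool),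
  Spec stepU (mkS v u z) (mkS (v.slu (fs U ⟨v.l, v.u, u⟩).l (fs U ⟨v.l, v.u, u⟩).var)
    (fs U ⟨v.l, v.u, u⟩).stk z) B

def T_HT : Prop := ∀ U : BM, ∃ B : ℕ, ∀ (c : CF U) (k : U.tm.K),
  ((fs U c).stk k).length ≤ (c.stk k).length + B ∧
    (c.stk k).length ≤ ((fs U c).stk k).length + B

def T_RC : Prop := ∀ U : BM, ∃ B : ℕ, ∀ (v : MM U) (u : UU U) (z : Nm → List Bool) (T : ℕ),
  z .clk = un T →
    Spec runClk (mkS v u z) (mkS (v.slu ((fs U)^[T] ⟨v.l, v.u, u⟩).l ((fs U)^[T] ⟨v.l, v.u, u⟩).var)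
      ((fs U)^[T] ⟨v.l, v.u, u⟩).stk (update z .clk [])) (B * T + 1)

def T_CLU : Prop := ∀ U : BM, ∃ B : ℕ, ∀ (v : MM U) (u : UU U) (z : Nm → List Bool),
  Spec clearU (mkS v u z) (mkS (v.slu none U.tm.initialState) (E₀ U) z) (2 * hs U u + B)

def T_CMP : Prop := ∀ (U : BM) (v : MM U) (u : UU U) (z : Nm → List Bool) (x : List Bool),
  z .q = [] → (u U.tm.k₁).map U.outputAlphabet = x →
    ∃ v', Reg v v' ∧ Spec cmp (mkS v u z)
      (mkS v' (update u U.tm.k₁ ((u U.tm.k₁).drop ((z .p).length + 1)))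
        (update (update z .v1 (if z .p ++ [true] <+: x then true :: z .v1 else z .v1))
          .v0 (if z .p ++ [false] <+: x then true :: z .v0 else z .v0)))
      (6 * (z .p).length + 10)

def T_INC : Prop := ∀ (U : BM) (v : MM U) (u : UU U) (z : Nm → List Bool),
  z .d' = [] →
    ∃ v', Reg v v' ∧ Spec incD (mkS v u z) (mkS v' u (update z .d (sc (z .d))))
      (7 * (z .d).length + 10)

/-- the hypotheses of the enumeration loop -/
def Hyp (m : ℕ) (P : List Bool) (z : Nm → List Bool) : Prop :=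
  z .m = un m ∧ z .p = P ∧ z .m' = [] ∧ z .clk = [] ∧ z .clk' = [] ∧ z .d' = [] ∧ z .e = [] ∧
    z .q = []

/-- state reset -/
def Rst {U : BM} (v v' : MM U) : Prop :=
  v'.l = none ∧ v'.u = U.tm.initialState ∧ v'.mode = v.mode

def T_BODY : Prop := ∀ U : BM, ∃ B : ℕ, ∀ (v : MM U) (z : Nm → List Bool) (m i : ℕ)
  (P : List Bool), Hyp m P z → z .d = ds i →
    ∃ v', Rst v v' ∧ Spec body (mkS v (E₀ U) z)
      (mkS v' (E₀ U) (update (update (update (update z .all' (true :: z .all'))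
        .d (ds (i + 1)))
        .v1 (if P ++ [true] <+: oo U m i then true :: z .v1 else z .v1))
        .v0 (if P ++ [false] <+: oo U m i then true :: z .v0 else z .v0)))
      (B * (2 ^ (m - (ds i).length) + m + (ds i).length + P.length + 1))

def T_BL : Prop := ∀ U : BM, ∃ B : ℕ, ∀ (v : MM U) (z : Nm → List Bool) (m N : ℕ)
  (P : List Bool), Hyp m P z → z .d = [] → z .all = un N → z .all' = [] → z .v0 = [] →
    z .v1 = [] → v.l = none → v.u = U.tm.initialState →
    ∃ v', Rst v v' ∧ Spec (lp .all body) (mkS v (E₀ U) z)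
      (mkS v' (E₀ U) (update (update (update (update (update z .all []) .all' (un N))
        .d (ds N))
        .v1 (un (cntN U m N (P ++ [true]))))
        .v0 (un (cntN U m N (P ++ [false])))))
      (B * ∑ i ∈ Finset.range N, (2 ^ (m - (ds i).length) + m + (ds i).length + P.length + 1) + 1)

def T_CHO : Prop := ∀ (U : BM) (v : MM U) (u : UU U) (z : Nm → List Bool) (j k : ℕ),
  z .v0 = un j → z .v1 = un k →
    ∃ v', Reg v v' ∧ v'.b = decide (k ≤ j) ∧ Spec choose (mkS v u z)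
      (mkS v' u (update (update z .v0 []) .v1 [])) (2 * j + 2 * k + 4)

/-- the hypotheses of the main loop -/
def Hyp' (m : ℕ) (P : List Bool) (z : Nm → List Bool) : Prop :=
  z .m = un m ∧ z .pr = P.reverse ∧ z .all = un (2 ^ (m + 1)) ∧ z .all' = [] ∧ z .p = [] ∧
    z .q = [] ∧ z .d = [] ∧ z .v0 = [] ∧ z .v1 = [] ∧ z .m' = [] ∧ z .clk = [] ∧ z .clk' = [] ∧
    z .d' = [] ∧ z .e = []

def T_RND : Prop := ∀ U : BM, ∃ B : ℕ, ∀ (v : MM U) (z : Nm → List Bool) (m : ℕ)
  (P : List Bool), Hyp' m P z → v.l = none → v.u = U.tm.initialState →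
    ∃ v', Rst v v' ∧ Spec round (mkS v (E₀ U) z)
      (mkS v' (E₀ U) (update z .pr (pick U m P :: P.reverse)))
      (B * ((m + P.length + 1) * 2 ^ m))

def T_ML : Prop := ∀ U : BM, ∃ B : ℕ, ∀ (v : MM U) (z : Nm → List Bool) (m r : ℕ)
  (P : List Bool), Hyp' m P z → z .n = un r → v.l = none → v.u = U.tm.initialState →
    ∃ v', Rst v v' ∧ Spec mainL (mkS v (E₀ U) z)
      (mkS v' (E₀ U) (update (update z .n []) .pr (gr U m r P).reverse))
      (B * (r * (m + P.length + r + 1) * 2 ^ m) + 1)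

def T_PAR : Prop := ∀ (U : BM) (v : MM U) (u : UU U) (z : Nm → List Bool) (x : List Bool),
  z .inp = x → z .cr = [] → z .pr = [] → z .n = [] → z .n' = [] → z .lam = [] → v.mode = 0 →
    ∃ v', v'.l = v.l ∧ v'.u = v.u ∧ v'.mode = (prs x).mode ∧ Spec parse (mkS v u z)
      (mkS v' u (update (update (update (update (update z .inp []) .cr (prs x).cr)
        .pr (prs x).pr) .n (un (prs x).n)) .lam (un (prs x).lam)))
      (20 * (x.length + 1) * ((prs x).n + 1))

def T_PRE : Prop := ∀ (U : BM) (v : MM U) (u : UU U) (z : Nm → List Bool) (n k : ℕ),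
  z .n = un n → z .lam = un k → z .n' = [] → z .m = [] →
    ∃ v', Reg v v' ∧ Spec prep (mkS v u z)
      (mkS v' u (update (update z .lam []) .m (un (n - 5 * k)))) (5 * n + 6 * k + 3)

def T_RNS : Prop := ∀ (U : BM) (v : MM U) (u : UU U) (z : Nm → List Bool) (n : ℕ),
  z .n = un n → z .p = [] →
    ∃ v', Reg v v' ∧ Spec rnds (mkS v u z)
      (mkS v' u (update z .n (un (n - (z .pr).length)))) (5 * (z .pr).length + 2)

def T_ALL : Prop := ∀ (U : BM) (v : MM U) (u : UU U) (z : Nm → List Bool) (r : ℕ),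
  z .m = un r → z .m' = [] → z .all = [] → z .all' = [] →
    Spec mkAll (mkS v u z) (mkS (v.sa false) u (update z .all (un (2 ^ (r + 1)))))
      (14 * 2 ^ r + 6 * r + 4)

def T_FIN : Prop := ∀ U : BM, ∃ B : ℕ, ∀ (v : MM U) (m A : ℕ) (c P : List Bool),
    ∃ v', Spec (.seq decision final) (mkS v (E₀ U)
      (update (update (update (update z₀ .pr P.reverse) .cr c.reverse) .m (un m)) .all (un A)))
      (mkS v' (E₀ U) (update z₀ .out
        (if acc U (2 ^ m) (c ++ P) && (v.mode == 2) then P else [])))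
      (B * (2 ^ m + m + P.length + c.length + A + 1))

def T_SPC : Prop := ∀ U : BM, ∃ B : ℕ, ∀ (v : MM U) (x : List Bool), v.mode = 0 →
  v.l = none → v.u = U.tm.initialState →
    ∃ v', Spec special (mkS v (E₀ U) (update z₀ .inp x))
      (mkS v' (E₀ U) (update z₀ .out (so U x)))
      (B * (x.length + (prs x).n + 2) ^ 3 * 2 ^ ((prs x).n - 5 * (prs x).lam))

def T_WFS : Prop := ∀ U : BM, WF (special (U := U))

def T_ORD : Prop := ∀ U : BM, ∃ B : ℕ, ∀ (v : MM U) (x : List Bool) (T : ℕ),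
  (at' U T x).l = none → (∀ i < T, (at' U i x).l ≠ none) →
    ∃ v' N, Run (.seq ordStart (.seq ordRun ordEnd)) (mkS v (E₀ U) (update z₀ .inp x))
      (mkS v' (E₀ U) (update z₀ .out (rawOut U T x))) N ∧
      (2 * (rawOut U T x).length) ^ 5 * T ≤ N ∧
      N ≤ B * (((rawOut U T x).length + 1) ^ 5 * (T + 1) + x.length)

/-- the part of `ordEnd` after `clearU` -/
def ordTail {U : BM} : CC U :=
  .seq (pushc .w true) (.seq mulN (.seq mulN (.seq mulN (.seq mulN (.seq mulN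
      (.seq mulT (.seq (clr .n) (.seq (clr .t) (mv .q .out)))))))))

def T_OT : Prop := ∀ (U : BM) (v : MM U) (u : UU U) (x : List Bool) (T : ℕ),
    ∃ v' N, Run ordTail (mkS v u
      (update (update (update z₀ .q x.reverse) .n (un x.length)) .t (un T)))
      (mkS v' u (update z₀ .out x)) N ∧
      (2 * x.length) ^ 5 * T ≤ N ∧ N ≤ 1000 * ((x.length + 1) ^ 5 * (T + 1))

def T_DIV : Prop := ∀ (U : BM) (v : MM U) (x : List Bool), (∀ i, (at' U i x).l ≠ none) →
  ∀ N₀, ∃ N, N₀ ≤ N ∧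
    Alive (.seq ordStart (.seq ordRun ordEnd)) (mkS v (E₀ U) (update z₀ .inp x)) N

/-! ### machines -/

/-- outputs in terms of the configurations -/
def T_OUT : Prop := ∀ U : BM, ∃ B : ℕ, ∀ (d x : List Bool) (t : ℕ), U.Outputs d x t →
  ∃ T ≤ t, (at' U T d).l = none ∧ (∀ i < T, (at' U i d).l ≠ none) ∧ rawOut U T d = x ∧
    d.length ≤ x.length + B * T ∧ x.length ≤ d.length + B * T

def T_MS : Prop := ∀ U : BM, ∃ B : ℕ, ∀ x : List Bool,
  (mod U).Outputs (true :: x) (so U x)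
    (B * (x.length + (prs x).n + 2) ^ 3 * 2 ^ ((prs x).n - 5 * (prs x).lam)) ∧
  ∀ y t, (mod U).Outputs (true :: x) y t → y = so U x

def T_MO : Prop := ∀ U : BM,
  (∃ B : ℕ, ∀ (x : List Bool) (T : ℕ), (at' U T x).l = none → (∀ i < T, (at' U i x).l ≠ none) →
    (mod U).Outputs (false :: x) (rawOut U T x)
      (B * (((rawOut U T x).length + 1) ^ 5 * (T + 1) + x.length))) ∧
  ∀ (x y : List Bool) (t : ℕ), (mod U).Outputs (false :: x) y t →
    ∃ T, (at' U T x).l = none ∧ (∀ i < T, (at' U i x).l ≠ none) ∧ y = rawOut U T x ∧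
      (2 * y.length) ^ 5 * T ≤ t

def T_ME : Prop := ∀ (U : BM) (y : List Bool) (t : ℕ), (mod U).Outputs [] y t → y = []

/-- simulation with polynomial factor in the length of the output -/
def T_SIM : Prop := ∀ U : BM, ∃ C : ℕ, ∀ d x t, U.Outputs d x t →
    (mod U).Outputs (false :: d) x (C * (x.length + 1) ^ 5 * t)

def T_UNI : Prop := ∀ (e : ℕ) (U : BM), Universal e U → ∃ e', Universal e' (mod U)

/-! ### pure facts -/

def T_DS : Prop := (∀ D : List Bool, ∃ i, ds i = D ∧ i + 1 < 2 ^ (D.length + 1)) ∧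
  (∀ i m : ℕ, i < 2 ^ m → (ds i).length ≤ m) ∧
  (∀ m : ℕ, ∑ i ∈ Finset.range (2 ^ (m + 1)), 2 ^ (m - (ds i).length) ≤ (m + 2) * 2 ^ (m + 1))

def T_GR : Prop := ∀ (U : BM) (m r : ℕ) (P : List Bool),
  P <+: gr U m r P ∧ (gr U m r P).length = P.length + r ∧
    2 ^ r * cnt U m (gr U m r P) ≤ cnt U m P

def T_PRS : Prop :=
  (∀ (c : List Bool) (n : ℕ), prs (code c n) = ⟨2, c.reverse, (en c).reverse, n, n.size⟩) ∧
  (∀ x, (prs x).mode = 2 → (prs x).pr.reverse = en (prs x).cr.reverse) ∧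
  (∀ c c' w : List Bool, en c <+: w → en c' <+: w → c = c') ∧
  (∀ (c : List Bool) (n : ℕ), (code c n).length = 2 * c.length + 1 + n.size)

/-- the string found by the special program is not an ordinary output -/
def T_NEW : Prop := ∀ (U : BM) (c : List Bool) (n : ℕ),
  n - 5 * n.size + 2 ≤ n - (en c).length → 5 * n.size ≤ n →
    (ww U (code c n)).length = n ∧ en c <+: ww U (code c n) ∧
    ∀ (d : List Bool) (T : ℕ), (at' U T d).l = none → rawOut U T d = ww U (code c n) →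
      2 ^ (n - 5 * n.size) < 2 ^ d.length * T

/-- asymptotics -/
def T_ASY : Prop := ∀ A e k : ℕ, ∀ᶠ n : ℕ in atTop,
  A ≤ n.size ∧ A * (n + 1) ^ 3 * 2 ^ (n.size) * 2 ^ (n - 5 * n.size) < 2 ^ n ∧
    k * (2 ^ (n / (e + 1)) + n + A) ^ e ≤ 2 ^ (n - 5 * n.size) ∧ 5 * n.size + A ≤ n

/-- the lower bound for deciders -/
def T_LOW : Prop := ∀ (e : ℕ) (U : BM), Universal e U → ∀ (V : BM) (τ : ℕ → ℕ),
  Decides V (RKt (mod U)) τ → ∀ᶠ n in atTop, 2 ^ (n / (e + 1)) ≤ τ n

def T_NP : Prop := ∀ (e : ℕ) (L : Set (List Bool)),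
  (∀ (V : BM) (τ : ℕ → ℕ), Decides V L τ → ∀ᶠ n in atTop, 2 ^ (n / (e + 1)) ≤ τ n) →
    ¬ InP L

end Pool.Agent.H49.KT
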