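import Pool.Agent.H49.KT.Comp
import Pool.Agent.H49.KT.Defs

/-!
A universal machine: interpreter for table machines.
-/

namespace Pool.Agent.H49.KT.Uni

open Turing Function
open Pool.Agent.H49.KT

/-! ### table machines -/

/-- an entry: symbols to write (the first one becomes the top), next state -/
abbrev Ent : Type := List ℕ × ℕ

/-- a block: number of the stack, entries for the empty stack and for the symbols `0, 1, ..` -/
abbrev Blk : Type := ℕ × List Ent

/-- the entry used for the content `s` of the stack -/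
def entIx : List ℕ → ℕ
  | [] => 0
  | y :: _ => y + 1

/-- one valid step in state `q` with stacks `L` -/
def TStep (B : List Blk) (q : ℕ) (L : List (List ℕ)) (q' : ℕ) (L' : List (List ℕ)) : Prop :=
  ∃ (i : ℕ) (es : List Ent) (s w : List ℕ), B[q]? = some (i, es) ∧ L[i]? = some s ∧
    es[entIx s]? = some (w, q') ∧ L' = L.set i (w ++ s.tail)

/-- `T` valid steps, none of them from state `0` -/
inductive TSteps (B : List Blk) : ℕ → ℕ → List (List ℕ) → ℕ → List (List ℕ) → Prop
  | refl (q : ℕ) (L : List (List ℕ)) : TSteps B 0 q L q L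
  | step {T q q' q'' : ℕ} {L L' L'' : List (List ℕ)} : q ≠ 0 → TStep B q L q' L' →
      TSteps B T q' L' q'' L'' → TSteps B (T + 1) q L q'' L''

/-! ### texts -/

inductive Tok
  | t1 | tc | tn | te | tb | ts | tk | tx
  deriving DecidableEq, Fintype

open Tok

/-- text of a symbol -/
def encS (y : ℕ) : List Tok := List.replicate (y + 1) t1 ++ [tc]

def encW (w : List ℕ) : List Tok := w.flatMap encS

def encC (L : List (List ℕ)) : List Tok := L.flatMap (fun w => ts :: encW w)

def encE (a : Ent) : List Tok := te :: (encW a.1 ++ tn :: List.replicate a.2 t1)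

def encB (a : Blk) : List Tok := tb :: (List.replicate a.1 t1 ++ a.2.flatMap encE)

def encP (B : List Blk) : List Tok := B.flatMap encB

/-- three bits for each token -/
def Tok.bits : Tok → List Bool
  | t1 => [false, false, false]
  | tc => [false, false, true]
  | tn => [false, true, false]
  | te => [false, true, true]
  | tb => [true, false, false]
  | ts => [true, false, true]
  | tk => [true, true, false]
  | tx => [true, true, true]

def ofB : Bool → Bool → Bool → Tok
  | false, false, false => t1
  | false, false, true => tc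
  | false, true, false => tn
  | false, true, true => te
  | true, false, false => tb
  | true, false, true => ts
  | true, true, false => tk
  | true, true, true => tx

def bitsOf (t : List Tok) : List Bool := t.flatMap Tok.bits

/-- the code: program, stacks before the input stack, stacks after it, flag -/
def codeU (B : List Blk) (j k : ℕ) (ng : Bool) : List Bool :=
  bitsOf (encP B ++ [tx]) ++ (bitsOf (List.replicate j ts ++ [ts, tx]) ++
    (bitsOf (List.replicate k ts ++ [tx]) ++ [ng]))

/-! ### program -/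

/-- finite memory -/
structure Me where
  r : Tok
  a : Bool
  g : Bool
  b1 : Bool
  b2 : Bool
  ng : Bool
  ct : Fin 3
  mode : Fin 5
  ph : Fin 5

def Me.equiv : Me ≃ Tok × Bool × Bool × Bool × Bool × Bool × Fin 3 × Fin 5 × Fin 5 where
  toFun v := (v.r, v.a, v.g, v.b1, v.b2, v.ng, v.ct, v.mode, v.ph)
  invFun v := ⟨v.1, v.2.1, v.2.2.1, v.2.2.2.1, v.2.2.2.2.1, v.2.2.2.2.2.1, v.2.2.2.2.2.2.1,
    v.2.2.2.2.2.2.2.1, v.2.2.2.2.2.2.2.2⟩
  left_inv _ := rfl
  right_inv _ := rfl

instance : Fintype Me := Fintype.ofEquiv _ Me.equiv.symm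

@[simps] def Me.sr (v : Me) (y : Tok) : Me := ⟨y, v.a, v.g, v.b1, v.b2, v.ng, v.ct, v.mode, v.ph⟩
@[simps] def Me.sa (v : Me) (y : Bool) : Me := ⟨v.r, y, v.g, v.b1, v.b2, v.ng, v.ct, v.mode, v.ph⟩
@[simps] def Me.sg (v : Me) (y : Bool) : Me := ⟨v.r, v.a, y, v.b1, v.b2, v.ng, v.ct, v.mode, v.ph⟩
@[simps] def Me.sb1 (v : Me) (y : Bool) : Me := ⟨v.r, v.a, v.g, y, v.b2, v.ng, v.ct, v.mode, v.ph⟩
@[simps] def Me.sb2 (v : Me) (y : Bool) : Me := ⟨v.r, v.a, v.g, v.b1, y, v.ng, v.ct, v.mode, v.ph⟩
@[simps] def Me.sng (v : Me) (y : Bool) : Me := ⟨v.r, v.a, v.g, v.b1, v.b2, y, v.ct, v.mode, v.ph⟩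
@[simps] def Me.sct (v : Me) (y : Fin 3) : Me := ⟨v.r, v.a, v.g, v.b1, v.b2, v.ng, y, v.mode, v.ph⟩
@[simps] def Me.sm (v : Me) (y : Fin 5) : Me := ⟨v.r, v.a, v.g, v.b1, v.b2, v.ng, v.ct, y, v.ph⟩
@[simps] def Me.sph (v : Me) (y : Fin 5) : Me := ⟨v.r, v.a, v.g, v.b1, v.b2, v.ng, v.ct, v.mode, y⟩

/-- names of the token stacks -/
inductive Nw
  | prg | prg' | cfg | cfg' | q | q' | i | x | w | w' | rr | p1 | p2 | dd | o
  deriving DecidableEq, Fintype

/-- input and output stack -/
inductive IO
  | inp | out
  deriving DecidableEq, Fintype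

@[reducible] def G2 : IO ⊕ Nw → Type
  | .inl _ => Bool
  | .inr _ => Tok

abbrev C2 : Type := Cmd (IO ⊕ Nw) Me G2

abbrev S2 : Type := St (IO ⊕ Nw) Me G2

instance (y : IO) : Fintype (G2 (.inl y)) := inferInstanceAs (Fintype Bool)

def mk2 (v : Me) (u : IO → List Bool) (z : Nw → List Tok) : S2 :=
  ⟨v, fun
    | .inl y => u y
    | .inr y => z y⟩

def skip : C2 := .load id

def pushr (y : Nw) : C2 := .push (.inr y) (fun v => v.r)

def pusht (y : Nw) (t : Tok) : C2 := .push (.inr y) (fun _ => t)

/-- pop, only the success flag is kept -/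
def popg (y : Nw) : C2 := .pop (.inr y) (fun v (o : Option Tok) => v.sg o.isSome)

def peekg (y : Nw) : C2 := .peek (.inr y) (fun v (o : Option Tok) => v.sg o.isSome)

def smode (k : Fin 5) : C2 := .load (fun v => v.sm k)

/-- loop on a token stack, current element in `r` -/
def lp (y : Nw) (c : C2) : C2 := .loop (.inr y) (fun v (t : Tok) => v.sr t) id c

def mv (y y' : Nw) : C2 := lp y (pushr y')

def clr (y : Nw) : C2 := lp y skip

/-- find block `|q|`, the number of its stack goes to `i` -/
def body1 : C2 :=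
  .seq (.ite (fun v => v.r == tb)
    (.seq (popg .q) (.ite (fun v => v.g) (pusht .q' t1)
      (.ite (fun v => v.mode == 0) (smode 1) (smode 2))))
    (.ite (fun v => v.mode == 1) (.ite (fun v => v.r == t1) (pusht .i t1) (smode 2)) skip))
  (pushr .prg')

def pass1 : C2 := .seq (smode 0) (.seq (lp .prg body1) (.seq (mv .prg' .prg) (mv .q' .q)))

/-- find stack `|i|`, remove its top symbol, its text goes to `x`, leave a mark -/
def body2 : C2 :=
  .ite (fun v => v.r == ts)
    (.seq (popg .i) (.ite (fun v => v.g) (pushr .cfg')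
      (.ite (fun v => v.mode == 0) (.seq (pushr .cfg') (.seq (pusht .cfg' tk) (smode 1)))
        (.seq (pushr .cfg') (smode 2)))))
    (.ite (fun v => v.mode == 1) (.ite (fun v => v.r == t1) (pusht .x t1) (smode 2))
      (pushr .cfg'))

def pass2 : C2 := .seq (smode 0) (.seq (lp .cfg body2) (mv .cfg' .cfg))

/-- find block `|q|` and its entry `|x|`; the text to write goes to `w'`, the next state to `q` -/
def body3 : C2 :=
  .seq (.ite (fun v => v.r == tb)
    (.seq (popg .q) (.ite (fun v => v.g) skip (.ite (fun v => v.mode == 0) (smode 1) (smode 4))))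
    (.ite (fun v => v.r == te)
      (.ite (fun v => v.mode == 1) (.seq (popg .x) (.ite (fun v => v.g) skip (smode 2)))
        (.ite (fun v => v.mode == 2 || v.mode == 3) (smode 4) skip))
      (.ite (fun v => v.r == tn) (.ite (fun v => v.mode == 2) (smode 3) skip)
        (.ite (fun v => v.mode == 2) (pushr .w) (.ite (fun v => v.mode == 3) (pushr .rr) skip)))))
  (pushr .prg')

def pass3 : C2 := .seq (smode 0) (.seq (lp .prg body3) (.seq (mv .prg' .prg)
  (.seq (mv .w .w') (mv .rr .q))))

/-- insert `w'` at the mark -/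
def body4 : C2 := .ite (fun v => v.r == tk) (lp .w' (pushr .cfg')) (pushr .cfg')

def pass4 : C2 := .seq (lp .cfg body4) (mv .cfg' .cfg)

def istep : C2 := .seq pass1 (.seq pass2 (.seq pass3 pass4))

def irun : C2 := .seq (peekg .q) (.wh (fun v => v.g) (.seq istep (peekg .q)))

/-- decode one input bit -/
def body0 : C2 :=
  .ite (fun v => v.ph == 4)
    (.ite (fun v => v.a) (.seq (pusht .dd t1) (.seq (pusht .dd t1) (pusht .dd tc)))
      (.seq (pusht .dd t1) (pusht .dd tc)))
    (.ite (fun v => v.ph == 3) (.load (fun v => (v.sng v.a).sph 4))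
      (.ite (fun v => v.ct == 0) (.load (fun v => (v.sb1 v.a).sct 1))
        (.ite (fun v => v.ct == 1) (.load (fun v => (v.sb2 v.a).sct 2))
          (.seq (.load (fun v => (v.sr (ofB v.b1 v.b2 v.a)).sct 0))
            (.ite (fun v => v.r == tx) (.load (fun v => v.sph (v.ph + 1)))
              (.ite (fun v => v.ph == 0) (pushr .prg')
                (.ite (fun v => v.ph == 1) (pushr .p1) (pushr .p2))))))))

def decode : C2 :=
  .seq (.loop (.inl .inp) (fun v (t : Bool) => v.sa t) id body0)
    (.seq (mv .prg' .prg) (.seq (mv .p2 .cfg) (.seq (mv .dd .cfg) (.seq (mv .p1 .cfg)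
      (pusht .q t1)))))

/-- read the output from stack `0` -/
def body5 : C2 :=
  .ite (fun v => v.r == ts)
    (.ite (fun v => v.mode == 0) (.load (fun v => (v.sm 1).sct 0)) (smode 2))
    (.ite (fun v => v.mode == 1)
      (.ite (fun v => v.r == t1) (.load (fun v => v.sct (if v.ct == 0 then 1 else 2)))
        (.seq (.ite (fun v => (v.ct == 2) != v.ng) (pusht .o t1) (pusht .o tc))
          (.load (fun v => v.sct 0)))) skip)

def output : C2 :=
  .seq (smode 0) (.seq (lp .cfg body5) (.seq (lp .o (.push (.inl .out) (fun v => (v.r == t1 : Bool))))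
    (clr .prg)))

def uprog : C2 := .seq decode (.seq irun output)

def me₀ : Me := ⟨t1, false, false, false, false, false, 0, 0, 0⟩

/-- the universal machine -/
def uni : BM where
  tm := machine uprog (.inl .inp) (.inl .out) me₀
  inputAlphabet := Equiv.refl Bool
  outputAlphabet := Equiv.refl Bool

end Pool.Agent.H49.KT.Uni
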