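import Pool.Agent.H49.KT.UProg

/-!
Rules for the pieces of the interpreter.
-/

namespace Pool.Agent.H49.KT.Uni

open Turing Function
open Pool.Agent.H49.KT

@[simp] theorem mk2_v (v : Me) (u : IO → List Bool) (z : Nw → List Tok) : (mk2 v u z).v = v := rfl

@[simp] theorem mk2_inl (v : Me) (u : IO → List Bool) (z : Nw → List Tok) (k : IO) :
    (mk2 v u z).S (.inl k) = u k := rfl

@[simp] theorem mk2_inr (v : Me) (u : IO → List Bool) (z : Nw → List Tok) (y : Nw) :
    (mk2 v u z).S (.inr y) = z y := rfl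

theorem upd2_inr (v v' : Me) (u : IO → List Bool) (z : Nw → List Tok) (y : Nw) (l : List Tok) :
    (⟨v', update (mk2 v u z).S (.inr y) l⟩ : S2) = mk2 v' u (update z y l) := by
  refine St.ext' rfl (funext fun k => ?_)
  rcases k with k | y'
  · show update (mk2 v u z).S (.inr y) l (.inl k) = u k
    rw [update_of_ne (by simp)]
    rfl
  · show update (mk2 v u z).S (.inr y) l (.inr y') = update z y l y'
    by_cases h : y' = y
    · subst h
      rw [update_self, update_self]
    · rw [update_of_ne (by simpa using h), update_of_ne h]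
      rfl

theorem upd2_inl (v v' : Me) (u : IO → List Bool) (z : Nw → List Tok) (k : IO)
    (l : List Bool) :
    (⟨v', update (mk2 v u z).S (.inl k) l⟩ : S2) = mk2 v' (update u k l) z := by
  refine St.ext' rfl (funext fun k' => ?_)
  rcases k' with k' | y
  · show update (mk2 v u z).S (.inl k) l (.inl k') = update u k l k'
    by_cases h : k' = k
    · subst h
      rw [update_self, update_self]
    · rw [update_of_ne (by simpa using h), update_of_ne h]
      rfl
  · show update (mk2 v u z).S (.inl k) l (.inr y) = z y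
    rw [update_of_ne (by simp)]
    rfl

variable (v : Me) (u : IO → List Bool) (z : Nw → List Tok)

theorem sp_skip : Spec skip (mk2 v u z) (mk2 v u z) 1 := Spec.load _ _

theorem sp_load (f : Me → Me) : Spec (.load f) (mk2 v u z) (mk2 (f v) u z) 1 := Spec.load _ _

theorem sp_smode (k : Fin 5) : Spec (smode k) (mk2 v u z) (mk2 (v.sm k) u z) 1 := Spec.load _ _

theorem sp_pushr (y : Nw) :
    Spec (pushr y) (mk2 v u z) (mk2 v u (update z y (v.r :: z y))) 1 := by
  have h := Spec.push (K := IO ⊕ Nw) (Γ := G2) (.inr y) (fun v : Me => v.r) (mk2 v u z)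
  rw [upd2_inr] at h
  exact h

theorem sp_pusht (y : Nw) (t : Tok) :
    Spec (pusht y t) (mk2 v u z) (mk2 v u (update z y (t :: z y))) 1 := by
  have h := Spec.push (K := IO ⊕ Nw) (Γ := G2) (.inr y) (fun _ : Me => t) (mk2 v u z)
  rw [upd2_inr] at h
  exact h

theorem sp_popg (y : Nw) :
    Spec (popg y) (mk2 v u z) (mk2 (v.sg (z y).head?.isSome) u (update z y (z y).tail)) 1 := by
  have h := Spec.pop (K := IO ⊕ Nw) (Γ := G2) (.inr y)
    (fun (v : Me) (o : Option Tok) => v.sg o.isSome) (mk2 v u z)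
  rw [upd2_inr] at h
  exact h

theorem sp_peekg (y : Nw) :
    Spec (peekg y) (mk2 v u z) (mk2 (v.sg (z y).head?.isSome) u z) 1 := ⟨rfl, le_rfl⟩

theorem sp_pusho (f : Me → Bool) :
    Spec (.push (.inl .out) f) (mk2 v u z) (mk2 v (update u .out (f v :: u .out)) z) 1 := by
  have h := Spec.push (K := IO ⊕ Nw) (Γ := G2) (.inl .out) f (mk2 v u z)
  rw [upd2_inl] at h
  exact h

/-- processing a piece of text by the body of a token loop -/
def Seg (c : C2) (l : List Tok) (s s' : S2) (T : ℕ) : Prop :=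
  ∀ (y : Nw), itS (k := (.inr y : IO ⊕ Nw)) (Γ := G2) (den c) (fun v (t : Tok) => v.sr t) l s = s' ∧
    itC (k := (.inr y : IO ⊕ Nw)) (Γ := G2) (den c) (cost c) (fun v (t : Tok) => v.sr t) l s ≤ T + 1

theorem Seg.nil (c : C2) (s : S2) : Seg c [] s s 0 := fun _ => ⟨rfl, le_rfl⟩

theorem Seg.cons {c : C2} {t : Tok} {l : List Tok} {v v' : Me} {u u' : IO → List Bool}
    {z z' : Nw → List Tok} {s : S2} {T T' : ℕ}
    (h : Spec c (mk2 (v.sr t) u z) (mk2 v' u' z') T) (h' : Seg c l (mk2 v' u' z') s T') :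
    Seg c (t :: l) (mk2 v u z) s (T + 1 + T') := by
  intro y
  obtain ⟨e1, e2⟩ := h' y
  have h1 : den c ⟨(mk2 v u z).v.sr t, (mk2 v u z).S⟩ = mk2 v' u' z' := h.1
  have h2 : cost c ⟨(mk2 v u z).v.sr t, (mk2 v u z).S⟩ ≤ T := h.2
  refine ⟨?_, ?_⟩
  · simp only [itS]
    rw [h1]
    exact e1
  · simp only [itC]
    rw [h1]
    omega

theorem Seg.append {c : C2} : ∀ {l l' : List Tok} {s s' s'' : S2} {T T' : ℕ},
    Seg c l s s' T → Seg c l' s' s'' T' → Seg c (l ++ l') s s'' (T + T') := by
  intro l l' s s' s'' T T' h h' y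
  have key : ∀ (l : List Tok) (s : S2),
      itS (k := (.inr y : IO ⊕ Nw)) (Γ := G2) (den c) (fun v (t : Tok) => v.sr t) (l ++ l') s =
        itS (k := (.inr y : IO ⊕ Nw)) (Γ := G2) (den c) (fun v (t : Tok) => v.sr t) l'
          (itS (k := (.inr y : IO ⊕ Nw)) (Γ := G2) (den c) (fun v (t : Tok) => v.sr t) l s) ∧
      itC (k := (.inr y : IO ⊕ Nw)) (Γ := G2) (den c) (cost c) (fun v (t : Tok) => v.sr t)
          (l ++ l') s + 1 =
        itC (k := (.inr y : IO ⊕ Nw)) (Γ := G2) (den c) (cost c) (fun v (t : Tok) => v.sr t) l s +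
        itC (k := (.inr y : IO ⊕ Nw)) (Γ := G2) (den c) (cost c) (fun v (t : Tok) => v.sr t) l'
          (itS (k := (.inr y : IO ⊕ Nw)) (Γ := G2) (den c) (fun v (t : Tok) => v.sr t) l s) := by
    intro l
    induction l with
    | nil => intro s; exact ⟨rfl, by simp only [List.nil_append, itS, itC]; omega⟩
    | cons t l ih =>
      intro s
      have e := ih (den c ⟨s.v.sr t, s.S⟩)
      refine ⟨?_, ?_⟩
      · simp only [List.cons_append, itS]
        exact e.1
      · simp only [List.cons_append, itS, itC]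
        have := e.2
        omega
  obtain ⟨k1, k2⟩ := key l s
  obtain ⟨e1, e2⟩ := h y
  obtain ⟨e3, e4⟩ := h' y
  refine ⟨?_, ?_⟩
  · rw [k1, e1]; exact e3
  · rw [e1] at k2
    omega

theorem Seg.mono {c : C2} {l : List Tok} {s s' : S2} {T T' : ℕ} (h : Seg c l s s' T)
    (hT : T ≤ T') : Seg c l s s' T' := fun y => ⟨(h y).1, (h y).2.trans (by omega)⟩

theorem sp_lp {v v' : Me} {u u' : IO → List Bool} {z z' : Nw → List Tok} {y : Nw} {c : C2}
    {l : List Tok} {T : ℕ} (hl : z y = l)
    (h : Seg c l (mk2 v u (update z y [])) (mk2 v' u' z') T) :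
    Spec (lp y c) (mk2 v u z) (mk2 v' u' z') (T + 1) := by
  subst hl
  obtain ⟨e1, e2⟩ := h y
  refine ⟨?_, ?_⟩
  · simp only [lp, den]
    rw [upd2_inr]
    simp only [mk2_inr, mk2_v]
    rw [e1]
    rfl
  · simp only [lp, cost]
    rw [upd2_inr]
    exact e2

/-- moving reverses -/
theorem sp_mv {y y' : Nw} (h : y ≠ y') : ∃ t,
    Spec (mv y y') (mk2 v u z) (mk2 (v.sr t) u
      (update (update z y []) y' ((z y).reverse ++ z y'))) (2 * (z y).length + 1) := by
  have key : ∀ (l : List Tok) (v : Me) (z : Nw → List Tok), ∃ t,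
      Seg (pushr y') l (mk2 v u z) (mk2 (v.sr t) u (update z y' (l.reverse ++ z y')))
        (2 * l.length) := by
    intro l
    induction l with
    | nil =>
      intro v z
      refine ⟨v.r, ?_⟩
      simp only [List.reverse_nil, List.nil_append, update_eq_self]
      exact Seg.nil _ _
    | cons a l ih =>
      intro v z
      obtain ⟨t, ht⟩ := ih (v.sr a) (update z y' (a :: z y'))
      refine ⟨t, ?_⟩
      have e := Seg.cons (v := v) (t := a) (sp_pushr (v.sr a) u z y') ht
      simp only [update_self, update_idem] at e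
      have e2 : (a :: l).reverse ++ z y' = l.reverse ++ a :: z y' := by simp
      rw [e2]
      exact e.mono (by simp only [List.length_cons]; omega)
  obtain ⟨t, ht⟩ := key (z y) v (update z y [])
  refine ⟨t, ?_⟩
  rw [update_of_ne h.symm] at ht
  exact sp_lp rfl ht

theorem sp_clr {y : Nw} : ∃ t,
    Spec (clr y) (mk2 v u z) (mk2 (v.sr t) u (update z y [])) (2 * (z y).length + 1) := by
  have key : ∀ (l : List Tok) (v : Me) (z : Nw → List Tok), ∃ t,
      Seg skip l (mk2 v u z) (mk2 (v.sr t) u z) (2 * l.length) := by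
    intro l
    induction l with
    | nil => intro v z; exact ⟨v.r, Seg.nil _ _⟩
    | cons a l ih =>
      intro v z
      obtain ⟨t, ht⟩ := ih (v.sr a) z
      refine ⟨t, ?_⟩
      have e := Seg.cons (v := v) (t := a) (sp_skip (v.sr a) u z) ht
      exact e.mono (by simp only [List.length_cons]; omega)
  obtain ⟨t, ht⟩ := key (z y) v (update z y [])
  exact ⟨t, sp_lp rfl ht⟩

theorem Spec.run2 {c : C2} {s s' : S2} {T : ℕ} (hc : WF c) (h : Spec c s s' T) :
    ∃ N ≤ T, Run c s s' N := by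
  obtain ⟨rfl, h2⟩ := h
  exact ⟨_, h2, run_den c hc s⟩

/-- processing a piece of the input by the body of a loop on the input stack -/
def SegI (c : C2) (l : List Bool) (s s' : S2) (T : ℕ) : Prop :=
  itS (k := (.inl .inp : IO ⊕ Nw)) (Γ := G2) (den c) (fun v (t : Bool) => v.sa t) l s = s' ∧
    itC (k := (.inl .inp : IO ⊕ Nw)) (Γ := G2) (den c) (cost c) (fun v (t : Bool) => v.sa t) l s ≤
      T + 1

theorem SegI.nil (c : C2) (s : S2) : SegI c [] s s 0 := ⟨rfl, le_rfl⟩

theorem SegI.cons {c : C2} {t : Bool} {l : List Bool} {v v' : Me} {u u' : IO → List Bool}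
    {z z' : Nw → List Tok} {s : S2} {T T' : ℕ}
    (h : Spec c (mk2 (v.sa t) u z) (mk2 v' u' z') T) (h' : SegI c l (mk2 v' u' z') s T') :
    SegI c (t :: l) (mk2 v u z) s (T + 1 + T') := by
  obtain ⟨e1, e2⟩ := h'
  have h1 : den c ⟨(mk2 v u z).v.sa t, (mk2 v u z).S⟩ = mk2 v' u' z' := h.1
  have h2 : cost c ⟨(mk2 v u z).v.sa t, (mk2 v u z).S⟩ ≤ T := h.2
  refine ⟨?_, ?_⟩
  · simp only [itS]
    rw [h1]
    exact e1
  · simp only [itC]
    rw [h1]
    omega

theorem SegI.append {c : C2} : ∀ {l l' : List Bool} {s s' s'' : S2} {T T' : ℕ},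
    SegI c l s s' T → SegI c l' s' s'' T' → SegI c (l ++ l') s s'' (T + T') := by
  intro l l' s s' s'' T T' h h'
  have key : ∀ (l : List Bool) (s : S2),
      itS (k := (.inl .inp : IO ⊕ Nw)) (Γ := G2) (den c) (fun v (t : Bool) => v.sa t) (l ++ l') s =
        itS (k := (.inl .inp : IO ⊕ Nw)) (Γ := G2) (den c) (fun v (t : Bool) => v.sa t) l'
          (itS (k := (.inl .inp : IO ⊕ Nw)) (Γ := G2) (den c) (fun v (t : Bool) => v.sa t) l s) ∧
      itC (k := (.inl .inp : IO ⊕ Nw)) (Γ := G2) (den c) (cost c) (fun v (t : Bool) => v.sa t)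
          (l ++ l') s + 1 =
        itC (k := (.inl .inp : IO ⊕ Nw)) (Γ := G2) (den c) (cost c)
          (fun v (t : Bool) => v.sa t) l s +
        itC (k := (.inl .inp : IO ⊕ Nw)) (Γ := G2) (den c) (cost c) (fun v (t : Bool) => v.sa t) l'
          (itS (k := (.inl .inp : IO ⊕ Nw)) (Γ := G2) (den c)
            (fun v (t : Bool) => v.sa t) l s) := by
    intro l
    induction l with
    | nil => intro s; exact ⟨rfl, by simp only [List.nil_append, itS, itC]; omega⟩
    | cons t l ih =>
      intro s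
      have e := ih (den c ⟨s.v.sa t, s.S⟩)
      refine ⟨?_, ?_⟩
      · simp only [List.cons_append, itS]
        exact e.1
      · simp only [List.cons_append, itS, itC]
        have := e.2
        omega
  obtain ⟨k1, k2⟩ := key l s
  obtain ⟨e1, e2⟩ := h
  obtain ⟨e3, e4⟩ := h'
  refine ⟨?_, ?_⟩
  · rw [k1, e1]; exact e3
  · rw [e1] at k2
    omega

theorem sp_lpi {v v' : Me} {u u' : IO → List Bool} {z z' : Nw → List Tok} {c : C2}
    {l : List Bool} {T : ℕ} (hl : u .inp = l)
    (h : SegI c l (mk2 v (update u .inp []) z) (mk2 v' u' z') T) :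
    Spec (.loop (.inl .inp) (fun v (t : Bool) => v.sa t) id c) (mk2 v u z) (mk2 v' u' z')
      (T + 1) := by
  subst hl
  obtain ⟨e1, e2⟩ := h
  refine ⟨?_, ?_⟩
  · simp only [den]
    rw [upd2_inl]
    simp only [mk2_inl, mk2_v]
    rw [e1]
    rfl
  · simp only [cost]
    rw [upd2_inl]
    exact e2

end Pool.Agent.H49.KT.Uni
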