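import Pool.Agent.H49.KT.URules
import Pool.Agent.H49.KT.Targets

/-!
Targets of the board kt2_modules: the universal machine `uni`.
-/

namespace Pool.Agent.H49.KT.Uni

open Turing Function
open Pool.Agent.H49.KT
open Tok

/-- unary number in tokens -/
abbrev us (k : ℕ) : List Tok := List.replicate k t1

/-- the flag `ng` is kept -/
abbrev Kp (v v' : Me) : Prop := v'.ng = v.ng

/-- text of the stacks with `w` in place of stack `i`, a mark before `w` -/
def mkd (L : List (List ℕ)) (i : ℕ) (w : List ℕ) : List Tok :=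
  encC (L.take i) ++ ts :: tk :: (encW w ++ encC (L.drop (i + 1)))

/-- the working stacks of one interpreted step are empty -/
def Em (z : Nw → List Tok) : Prop :=
  z .prg' = [] ∧ z .cfg' = [] ∧ z .q' = [] ∧ z .i = [] ∧ z .x = [] ∧ z .w = [] ∧ z .w' = [] ∧
    z .rr = []

/-- all token stacks empty -/
def e₀ : Nw → List Tok := fun _ => []

/-! ### the interpreter -/

def T_P1 : Prop := ∀ (v : Me) (u : IO → List Bool) (z : Nw → List Tok) (B : List Blk) (q i : ℕ)
  (es : List Ent), B[q]? = some (i, es) → z .prg = encP B → z .prg' = [] → z .q = us q →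
    z .q' = [] → z .i = [] →
    ∃ v', Kp v v' ∧ Spec pass1 (mk2 v u z) (mk2 v' u (update z .i (us i)))
      (20 * (encP B).length + 20)

def T_P2 : Prop := ∀ (v : Me) (u : IO → List Bool) (z : Nw → List Tok) (L : List (List ℕ))
  (i : ℕ) (s : List ℕ), L[i]? = some s → z .cfg = encC L → z .cfg' = [] → z .i = us i →
    z .x = [] →
    ∃ v', Kp v v' ∧ Spec pass2 (mk2 v u z)
      (mk2 v' u (update (update (update z .i []) .x (us (entIx s))) .cfg (mkd L i s.tail)))
      (20 * (encC L).length + 20)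

def T_P3 : Prop := ∀ (v : Me) (u : IO → List Bool) (z : Nw → List Tok) (B : List Blk)
  (q i x q' : ℕ) (es : List Ent) (w : List ℕ), B[q]? = some (i, es) → es[x]? = some (w, q') →
    z .prg = encP B → z .prg' = [] → z .q = us q → z .x = us x → z .w = [] → z .w' = [] →
    z .rr = [] →
    ∃ v', Kp v v' ∧ Spec pass3 (mk2 v u z)
      (mk2 v' u (update (update (update z .x []) .w' (encW w)) .q (us q')))
      (20 * (encP B).length + 20)

def T_P4 : Prop := ∀ (v : Me) (u : IO → List Bool) (z : Nw → List Tok) (L : List (List ℕ))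
  (i : ℕ) (w w' : List ℕ), i < L.length → z .cfg = mkd L i w → z .cfg' = [] →
    z .w' = encW w' →
    ∃ v', Kp v v' ∧ Spec pass4 (mk2 v u z)
      (mk2 v' u (update (update z .w' []) .cfg (encC (L.set i (w' ++ w)))))
      (20 * ((mkd L i w).length + (encW w').length) + 20)

/-- one interpreted step -/
def T_IS : Prop := ∀ (v : Me) (u : IO → List Bool) (z : Nw → List Tok) (B : List Blk) (q q' : ℕ)
  (L L' : List (List ℕ)), TStep B q L q' L' → Em z → z .prg = encP B → z .cfg = encC L →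
    z .q = us q →
    (∃ v', Kp v v' ∧ Spec istep (mk2 v u z)
      (mk2 v' u (update (update z .cfg (encC L')) .q (us q')))
      (200 * ((encP B).length + (encC L).length + 1))) ∧
    (encC L').length ≤ (encC L).length + (encP B).length

/-- the whole interpreted run -/
def T_RUN : Prop := ∀ (v : Me) (u : IO → List Bool) (z : Nw → List Tok) (B : List Blk) (q T : ℕ)
  (L L' : List (List ℕ)), TSteps B T q L 0 L' → Em z → z .prg = encP B → z .cfg = encC L →
    z .q = us q →
    (∃ v' N, Kp v v' ∧ Run irun (mk2 v u z) (mk2 v' u (update (update z .cfg (encC L')) .q []))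
      N ∧ N ≤ 1000 * ((T + 1) * ((encP B).length * (T + 1) + (encC L).length + 1))) ∧
    (encC L').length ≤ (encC L).length + T * (encP B).length

/-- start stacks -/
def L₀ (j k : ℕ) (d : List Bool) : List (List ℕ) :=
  List.replicate j [] ++ d.map Bool.toNat :: List.replicate k []

def T_DEC : Prop := ∀ (v : Me) (u : IO → List Bool) (B : List Blk) (j k : ℕ) (ng : Bool)
  (d : List Bool), u .inp = codeU B j k ng ++ d → v.ct = 0 → v.ph = 0 →
    ∃ v', v'.ng = ng ∧ Spec decode (mk2 v u e₀)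
      (mk2 v' (update u .inp []) (update (update (update e₀ .prg (encP B))
        .cfg (encC (L₀ j k d))) .q [t1]))
      (100 * ((codeU B j k ng).length + d.length + 1))

def T_OUP : Prop := ∀ (v : Me) (u : IO → List Bool) (z : Nw → List Tok) (s : List ℕ)
  (L : List (List ℕ)), z .cfg = encC (s :: L) → z .o = [] → u .out = [] →
    ∃ v', Spec output (mk2 v u z)
      (mk2 v' (update u .out (s.map (fun y => (y != 0) != v.ng)))
        (update (update z .cfg []) .prg []))
      (50 * ((encC (s :: L)).length + (z .prg).length + 1))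

def T_WFU : Prop := WF istep ∧ WF decode ∧ WF output

/-- table machines are executed by `uni` -/
def T_MA : Prop := ∀ (B : List Blk) (j k : ℕ) (ng : Bool), ∃ C : ℕ, ∀ (d : List Bool) (T : ℕ)
  (s : List ℕ) (L : List (List ℕ)), TSteps B T 1 (L₀ j k d) 0 (s :: L) →
    uni.Outputs (codeU B j k ng ++ d) (s.map (fun y => (y != 0) != ng))
      (C * (T + d.length + 1) ^ 2)

/-! ### from machines to tables -/

section

variable (V : BM)

/-- statements -/
abbrev SQ : Type := TM2.Stmt V.tm.Γ V.tm.Λ V.tm.σ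

/-- stacks -/
abbrev SK : Type := ∀ k, List (V.tm.Γ k)

/-- `q` occurs in the program -/
def Qs (q : SQ V) : Prop := ∃ l, q ∈ TM2.stmts₁ (V.tm.m l)

/-- `g` may occur on stack `k` -/
def Sy (k : V.tm.K) (g : V.tm.Γ k) : Prop :=
  k = V.tm.k₀ ∨ ∃ q f a, Qs V (.push k f q) ∧ f a = g

/-- all symbols on the stacks are among those that may occur -/
def Vl (S : SK V) : Prop := ∀ k, ∀ g ∈ S k, Sy V k g

/-- numbers for symbols, stacks, and pairs of a statement and a memory value -/
structure Sch where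
  cd : ∀ k, V.tm.Γ k → ℕ
  M : ℕ
  ng : Bool
  n : ℕ
  e : V.tm.K ≃ Fin (n + 1)
  N : ℕ
  st : SQ V → V.tm.σ → ℕ
  cd_inj : ∀ k g g', Sy V k g → Sy V k g' → cd k g = cd k g' → g = g'
  cd_lt : ∀ k g, Sy V k g → cd k g < M
  cd_in : ∀ g, cd V.tm.k₀ g = (V.inputAlphabet g).toNat
  cd_out : ∀ g, V.outputAlphabet g = ((cd V.tm.k₁ g != 0) != ng)
  e_k₁ : e V.tm.k₁ = 0
  st_inj : ∀ q q' a a', Qs V q → Qs V q' → st q a = st q' a' → q = q' ∧ a = a'
  st_lt : ∀ q a, Qs V q → st q a < N
  st_ge : ∀ q a, 2 ≤ st q a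

end

variable {V : BM} (s : Sch V)

open Classical in
/-- entries of a block for stack `k`, given by a function of the symbol read -/
noncomputable def Sch.ents (k : V.tm.K) (F : Option (V.tm.Γ k) → Ent) : List Ent :=
  F none :: (List.range s.M).map (fun y =>
    if h : ∃ g, Sy V k g ∧ s.cd k g = y then F (some h.choose) else ([], 0))

/-- rewrite the symbol read -/
def Sch.same (k : V.tm.K) (o : Option (V.tm.Γ k)) : List ℕ := (o.map (s.cd k)).toList

/-- block of a statement with memory `a` -/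
noncomputable def Sch.blkOf (q : SQ V) (a : V.tm.σ) : Blk :=
  match q with
  | .push k f q' => ((s.e k : ℕ), s.ents k (fun o => (s.cd k (f a) :: s.same k o, s.st q' a)))
  | .peek k f q' => ((s.e k : ℕ), s.ents k (fun o => (s.same k o, s.st q' (f a o))))
  | .pop k f q' => ((s.e k : ℕ), s.ents k (fun o => ([], s.st q' (f a o))))
  | .load f q' => (0, s.ents V.tm.k₁ (fun o => (s.same _ o, s.st q' (f a))))
  | .branch p q₁ q₂ =>
    (0, s.ents V.tm.k₁ (fun o => (s.same _ o, s.st (bif p a then q₁ else q₂) a)))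
  | .goto f => (0, s.ents V.tm.k₁ (fun o => (s.same _ o, s.st (V.tm.m (f a)) a)))
  | .halt => (0, s.ents V.tm.k₁ (fun o => (s.same _ o, 0)))

open Classical in
/-- block number `i` -/
noncomputable def Sch.blk (i : ℕ) : Blk :=
  if i = 1 then (0, s.ents V.tm.k₁ (fun o => (s.same _ o,
    s.st (V.tm.m V.tm.main) V.tm.initialState)))
  else if h : ∃ p : SQ V × V.tm.σ, Qs V p.1 ∧ s.st p.1 p.2 = i
    then s.blkOf h.choose.1 h.choose.2 else (0, [])

/-- the table -/
noncomputable def Sch.tbl : List Blk := (List.range (s.N + 2)).map s.blk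

/-- the list of the stacks -/
def Sch.enc (S : SK V) : List (List ℕ) :=
  List.ofFn (fun i : Fin (s.n + 1) => (S (s.e.symm i)).map (s.cd (s.e.symm i)))

/-- number of a configuration -/
def Sch.sc (c : CF V) : ℕ :=
  match c.l with
  | none => 0
  | some l => s.st (V.tm.m l) c.var

/-- statements occurring in the program -/
def T_QS : Prop := ∀ V : BM, (∀ l, Qs V (V.tm.m l)) ∧
  (∀ k f q, Qs V (.push k f q) → Qs V q) ∧ (∀ k f q, Qs V (.peek k f q) → Qs V q) ∧
  (∀ k f q, Qs V (.pop k f q) → Qs V q) ∧ (∀ f q, Qs V (.load f q) → Qs V q) ∧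
  (∀ p q₁ q₂, Qs V (.branch p q₁ q₂) → Qs V q₁ ∧ Qs V q₂) ∧
  (∃ A : List (SQ V), ∀ q, Qs V q → q ∈ A)

/-- finitely many symbols -/
def T_SYF : Prop := ∀ (V : BM) (k : V.tm.K), ∃ A : List (V.tm.Γ k), ∀ g, Sy V k g → g ∈ A

/-- numbers of the symbols of one stack -/
def T_CD : Prop := ∀ (V : BM) (k : V.tm.K), ∃ (c : V.tm.Γ k → ℕ) (M : ℕ) (ng : Bool),
  (∀ g g', Sy V k g → Sy V k g' → c g = c g' → g = g') ∧ (∀ g, Sy V k g → c g < M) ∧
  (∀ h : V.tm.k₀ = k, ∀ g : V.tm.Γ V.tm.k₀, c (h ▸ g) = (V.inputAlphabet g).toNat) ∧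
  (∀ h : V.tm.k₁ = k, ∀ g : V.tm.Γ V.tm.k₁, V.outputAlphabet g = ((c (h ▸ g) != 0) != ng))

/-- there is a scheme -/
def T_SCH : Prop := ∀ V : BM, Nonempty (Sch V)

/-- stacks as a list -/
def T_EN : Prop := ∀ (V : BM) (s : Sch V) (S : SK V),
  (∀ k, (s.enc S)[(s.e k : ℕ)]? = some ((S k).map (s.cd k))) ∧
  (∀ k l, (s.enc S).set (s.e k : ℕ) (l.map (s.cd k)) =
    s.enc (@update _ _ V.tm.kDecidableEq S k l)) ∧
  (∃ L, s.enc S = (S V.tm.k₁).map (s.cd V.tm.k₁) :: L) ∧
  (∃ j k, ∀ d : List Bool, s.enc (@update _ _ V.tm.kDecidableEq (fun _ => []) V.tm.k₀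
    (d.map V.inputAlphabet.symm)) = L₀ j k d)

/-- generic table step -/
def T_GEN : Prop := ∀ (V : BM) (s : Sch V) (q : SQ V) (a : V.tm.σ) (S : SK V) (k : V.tm.K)
  (F : Option (V.tm.Γ k) → Ent) (l : List (V.tm.Γ k)), Qs V q → Vl V S →
    s.blkOf q a = ((s.e k : ℕ), s.ents k F) →
    (F (S k).head?).1 ++ (S k).tail.map (s.cd k) = l.map (s.cd k) →
    TStep s.tbl (s.st q a) (s.enc S) (F (S k).head?).2
      (s.enc (@update _ _ V.tm.kDecidableEq S k l))

/-- the first step -/
def T_ST1 : Prop := ∀ (V : BM) (s : Sch V) (S : SK V), Vl V S →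
  TStep s.tbl 1 (s.enc S) (s.st (V.tm.m V.tm.main) V.tm.initialState) (s.enc S)

/-- one step of the machine -/
def T_AUX : Prop := ∀ (V : BM) (s : Sch V), ∃ D : ℕ, ∀ (l : V.tm.Λ) (a : V.tm.σ) (S : SK V),
  Vl V S → Vl V (fs V ⟨some l, a, S⟩).stk ∧ ∃ T ≤ D, ∀ (T' : ℕ) (L : List (List ℕ)),
    TSteps s.tbl T' (s.sc (fs V ⟨some l, a, S⟩)) (s.enc (fs V ⟨some l, a, S⟩).stk) 0 L →
    TSteps s.tbl (T + T') (s.st (V.tm.m l) a) (s.enc S) 0 L

/-- every machine has an equivalent table -/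
def T_TAB : Prop := ∀ V : BM, ∃ (B : List Blk) (j k : ℕ) (ng : Bool) (C : ℕ),
  ∀ (d x : List Bool) (t : ℕ), V.Outputs d x t →
    ∃ (T : ℕ) (s : List ℕ) (L : List (List ℕ)), T ≤ C * (t + 1) ∧
      TSteps B T 1 (L₀ j k d) 0 (s :: L) ∧ s.map (fun y => (y != 0) != ng) = x

/-- `uni` is universal -/
def T_UU : Prop := Universal 2 uni

/-- final statement -/
def Main2 : Prop := (∃ U₀ : BM, Universal 2 U₀) ∧ Main

end Pool.Agent.H49.KT.Uni
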